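import Pool.Agent.W78.GA.Basic
import Pool.Agent.H376R2.MR.Mv

/-! Task GA-6: the large sieve for the angles of primitive elements of an imaginary quadratic order
(port of `W345/GM/LS`). -/

set_option autoImplicit false

namespace Pool.Agent.W327.GA

open Finset
open Pool.Agent.H376R2.MR Pool.Agent.W78.GA

variable {t c : ℤ}

/-! ### the kernel -/

theorem Fj_neg (K : ℕ) (u : ℝ) : Fj K (-u) = Fj K u := by
  unfold Fj
  refine Finset.sum_congr rfl fun k _ => ?_
  rw [mul_neg, Real.cos_neg]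

theorem Fj_periodic (K : ℕ) (u : ℝ) (j : ℤ) : Fj K (u + 2 * Real.pi * j) = Fj K u := by
  unfold Fj
  refine Finset.sum_congr rfl fun k _ => ?_
  have h : (k : ℝ) * (u + 2 * Real.pi * j) = k * u + ((k * j : ℤ) : ℝ) * (2 * Real.pi) := by
    push_cast; ring
  rw [h, Real.cos_add_int_mul_two_pi]

/-! ### separation of the angles -/

theorem re_conj_mul (a b : ℂ) : ((starRingEnd ℂ) a * b).re =
    ‖a‖ * ‖b‖ * Real.cos (Complex.arg b - Complex.arg a) := by
  rw [Complex.mul_re, Complex.conj_re, Complex.conj_im, Real.cos_sub]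
  have h1 := Complex.norm_mul_cos_arg a
  have h2 := Complex.norm_mul_sin_arg a
  have h3 := Complex.norm_mul_cos_arg b
  have h4 := Complex.norm_mul_sin_arg b
  rw [← h1, ← h2, ← h3, ← h4]
  ring

theorem im_conj_mul (a b : ℂ) : ((starRingEnd ℂ) a * b).im =
    ‖a‖ * ‖b‖ * Real.sin (Complex.arg b - Complex.arg a) := by
  rw [Complex.mul_im, Complex.conj_re, Complex.conj_im, Real.sin_sub]
  have h1 := Complex.norm_mul_cos_arg a
  have h2 := Complex.norm_mul_sin_arg a
  have h3 := Complex.norm_mul_cos_arg b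
  have h4 := Complex.norm_mul_sin_arg b
  rw [← h1, ← h2, ← h3, ← h4]
  ring

theorem dt_eq (hD : t ^ 2 < 4 * c) (z z' : Qd t c) :
    (dt z z' : ℝ) * Real.sqrt (4 * c - t ^ 2) / 2 =
      ‖tc z‖ * ‖tc z'‖ * Real.sin (ang z' - ang z) := by
  unfold ang
  rw [← im_conj_mul, ← tc_star, ← tc_mul hD, star_mul_eq, tc_im]

theorem one_le_q (hD : t ^ 2 < 4 * c) : 1 ≤ Real.sqrt (4 * c - t ^ 2) := by
  rw [Real.one_le_sqrt]
  have := three_le_disc hD
  linarith

theorem coprime_parallel {a b c d : ℤ} (h1 : Int.gcd a b = 1) (h2 : Int.gcd c d = 1)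
    (h : a * d = b * c) : (c = a ∧ d = b) ∨ (c = -a ∧ d = -b) := by
  have hab : IsCoprime a b := Int.isCoprime_iff_gcd_eq_one.2 h1
  have hcd : IsCoprime c d := Int.isCoprime_iff_gcd_eq_one.2 h2
  have e1 : a ∣ c := hab.dvd_of_dvd_mul_left (Dvd.intro _ h)
  have e2 : c ∣ a := hcd.dvd_of_dvd_mul_right (Dvd.intro_left _ h.symm)
  have e3 : b ∣ d := hab.symm.dvd_of_dvd_mul_left (Dvd.intro _ h.symm)
  have e4 : d ∣ b := hcd.symm.dvd_of_dvd_mul_right (Dvd.intro_left _ h)
  have f1 := Int.natAbs_dvd_natAbs.2 e1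
  have f2 := Int.natAbs_dvd_natAbs.2 e2
  have f3 := Int.natAbs_dvd_natAbs.2 e3
  have f4 := Int.natAbs_dvd_natAbs.2 e4
  have g1 := Nat.dvd_antisymm f1 f2
  have g2 := Nat.dvd_antisymm f3 f4
  rcases Int.natAbs_eq_natAbs_iff.1 g1 with h3 | h3 <;>
    rcases Int.natAbs_eq_natAbs_iff.1 g2 with h4 | h4
  · exact Or.inl ⟨h3.symm, h4.symm⟩
  · -- a = c, b = -d
    have h5 : a * d = 0 := by
      have : a * d = -(a * d) := by
        calc a * d = b * c := h
          _ = -(a * d) := by rw [h4, ← h3]; ring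
      omega
    rcases mul_eq_zero.1 h5 with h6 | h6
    · right; constructor <;> omega
    · left; constructor <;> omega
  · have h5 : a * d = 0 := by
      have : a * d = -(a * d) := by
        calc a * d = b * c := h
          _ = -(a * d) := by rw [h4, h3]; ring
      omega
    rcases mul_eq_zero.1 h5 with h6 | h6
    · left; constructor <;> omega
    · right; constructor <;> omega
  · exact Or.inr ⟨by omega, by omega⟩

theorem sep (hD : t ^ 2 < 4 * c) {X : ℝ} (hX : 1 ≤ X) {z z' : Qd t c} (hz : prim z)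
    (hz' : prim z') (hzX : (nm z : ℝ) ≤ X) (hzX' : (nm z' : ℝ) ≤ X) (hne : z ≠ z') :
    1 ≤ (2 * X) * |ang z - ang z'| := by
  have hn : ‖tc z‖ * ‖tc z'‖ ≤ X := by
    have h1 := nm_eq_norm_sq hD z
    have h2 := nm_eq_norm_sq hD z'
    have h3 := norm_nonneg (tc z)
    have h4 := norm_nonneg (tc z')
    nlinarith [sq_nonneg (‖tc z‖ - ‖tc z'‖)]
  have hn0 : 0 ≤ ‖tc z‖ * ‖tc z'‖ := by positivity
  have hq := one_le_q hD
  by_cases hd : dt z z' = 0
  · -- antipodal
    have h1 : z' = -z := by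
      have h2 : z.re * z'.im = z.im * z'.re := by
        unfold dt at hd; omega
      rcases coprime_parallel hz hz' h2 with h3 | h3
      · exact absurd (QuadraticAlgebra.ext h3.1.symm h3.2.symm) hne
      · exact QuadraticAlgebra.ext (by simpa using h3.1) (by simpa using h3.2)
    have h2 := re_conj_mul (tc z) (tc z')
    have h3 : ((starRingEnd ℂ) (tc z) * tc z').re = -(nm z : ℝ) := by
      rw [h1, tc_neg, mul_neg, Complex.neg_re, nm_eq_norm_sq hD, mul_comm, Complex.mul_conj,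
        Complex.normSq_eq_norm_sq, Complex.ofReal_re]
    have h4 : ‖tc z'‖ = ‖tc z‖ := by
      rw [h1, tc_neg, norm_neg]
    have h5 : (0 : ℝ) < nm z := nm_posR hD (prim_ne_zero hz)
    have h6 : Real.cos (ang z' - ang z) = -1 := by
      rw [h3, h4, ← sq, ← nm_eq_norm_sq hD] at h2
      have : (nm z : ℝ) * (Real.cos (ang z' - ang z) + 1) = 0 := by
        unfold ang
        linarith
      rcases mul_eq_zero.1 this with h7 | h7
      · exact absurd h7 h5.ne'
      · linarith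
    have h7 := Real.one_sub_sq_div_two_le_cos (x := ang z' - ang z)
    rw [h6] at h7
    have h8 : 1 ≤ |ang z - ang z'| := by
      rw [abs_sub_comm]
      by_contra hcon
      push Not at hcon
      have h9 : (ang z' - ang z) ^ 2 < 1 := by
        rw [← sq_abs]
        have := abs_nonneg (ang z' - ang z)
        nlinarith
      nlinarith
    nlinarith
  · have h1 : (1 : ℝ) ≤ |(dt z z' : ℝ)| := by
      have : 1 ≤ |dt z z'| := Int.one_le_abs hd
      exact_mod_cast this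
    have h3 : |(dt z z' : ℝ) * Real.sqrt (4 * c - t ^ 2) / 2| =
        |‖tc z‖ * ‖tc z'‖ * Real.sin (ang z' - ang z)| := by rw [dt_eq hD z z']
    rw [abs_mul (‖tc z‖ * ‖tc z'‖), abs_of_nonneg hn0, abs_div, abs_mul,
      abs_of_nonneg (by positivity : (0 : ℝ) ≤ Real.sqrt (4 * c - t ^ 2)),
      abs_of_pos (by norm_num : (0 : ℝ) < 2)] at h3
    have h2 : |Real.sin (ang z' - ang z)| ≤ |ang z' - ang z| := Real.abs_sin_le_abs
    rw [abs_sub_comm (ang z)]
    have h4 : ‖tc z‖ * ‖tc z'‖ * |Real.sin (ang z' - ang z)| ≤ X * |ang z' - ang z| :=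
      mul_le_mul hn h2 (abs_nonneg _) (by linarith)
    have h5 : 1 ≤ |(dt z z' : ℝ)| * Real.sqrt (4 * c - t ^ 2) := by
      calc (1 : ℝ) = 1 * 1 := (one_mul 1).symm
        _ ≤ _ := mul_le_mul h1 hq zero_le_one (abs_nonneg _)
    linarith

/-! ### the row sums -/

theorem row_aux {ι : Type*} [Nonempty ι] (ang : ι → ℝ)
    (hang : ∀ z : ι, -Real.pi < ang z ∧ ang z ≤ Real.pi) {X : ℝ} {K : ℕ} (hX : 1 ≤ X) (hK : 1 ≤ K)
    (s : Finset ι) (hs : ∀ z ∈ s, ∀ z' ∈ s, z ≠ z' → 1 ≤ X * |ang z - ang z'|) (α : ℝ)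
    (hα : ∀ z ∈ s, |α - ang z| ≤ Real.pi) :
    ∑ z ∈ s, Fj (2 * K) (α - ang z) ≤
      (6 + Real.pi ^ 2 * Real.exp 1 ^ 2) * ((X + K) + K) := by
  classical
  have hK0 : (0 : ℝ) < K := by exact_mod_cast hK
  have hX0 : 0 < X := by linarith
  have hpi := Real.pi_pos
  have hpi4 : Real.pi < 3.15 := Real.pi_lt_d2
  have he : 2 < Real.exp 1 := by have := Real.exp_one_gt_d9; linarith
  set φ : ι → ℕ := fun z => ⌊X * (ang z + 8)⌋₊ with hφ
  set m : ℕ := ⌊X * (α + 8)⌋₊ with hm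
  have hpos : ∀ z : ι, 0 ≤ X * (ang z + 8) := fun z => by
    have := (hang z).1
    exact mul_nonneg hX0.le (by linarith)
  have hinj : Set.InjOn φ (s : Set ι) := by
    intro z hz z' hz' h
    by_contra hne
    have h1 := hs z hz z' hz' hne
    have h2 := Nat.floor_le (hpos z)
    have h3 := Nat.lt_floor_add_one (X * (ang z + 8))
    have h4 := Nat.floor_le (hpos z')
    have h5 := Nat.lt_floor_add_one (X * (ang z' + 8))
    have h6 : (⌊X * (ang z + 8)⌋₊ : ℝ) = (⌊X * (ang z' + 8)⌋₊ : ℝ) := by exact_mod_cast h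
    have h7 : X * |ang z - ang z'| < 1 := by
      rw [← abs_of_pos hX0, ← abs_mul, abs_lt]
      constructor <;> nlinarith
    linarith
  set F : ℕ → ℝ := fun n => Fj (2 * K) (α - ang (Function.invFunOn φ (s : Set ι) n))
    with hF
  have hinv : ∀ z ∈ s, Function.invFunOn φ (s : Set ι) (φ z) = z := fun z hz =>
    hinj.leftInvOn_invFunOn hz
  have hsum : ∑ z ∈ s, Fj (2 * K) (α - ang z) = ∑ n ∈ s.image φ, F n := by
    rw [Finset.sum_image hinj]
    refine Finset.sum_congr rfl fun z hz => ?_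
    simp only [hF]
    rw [hinv z hz]
  rw [hsum]
  refine mv_row (m := m) hK (by linarith) (s.image φ) F ?_ ?_
  · intro n hn
    have := Fj_le (2 * K) (α - ang (Function.invFunOn φ (s : Set ι) n))
    push_cast at this
    exact this
  · intro n hn hne
    obtain ⟨z, hz, rfl⟩ := Finset.mem_image.1 hn
    simp only [hF]
    rw [hinv z hz]
    have ha := hα z hz
    have hα8 : 0 ≤ X * (α + 8) := by
      have h1 := (abs_le.1 ha).1
      have h2 := (hang z).1
      exact mul_nonneg hX0.le (by linarith)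
    have h2 := Nat.floor_le (hpos z)
    have h3 := Nat.lt_floor_add_one (X * (ang z + 8))
    have h4 := Nat.floor_le hα8
    have h5 := Nat.lt_floor_add_one (X * (α + 8))
    have hdist : |(m : ℝ) - (φ z : ℝ)| ≤ X * |α - ang z| + 1 := by
      rw [← abs_of_pos hX0, ← abs_mul]
      have e1 : X * (α - ang z) = X * (α + 8) - X * (ang z + 8) := by ring
      rw [e1]
      simp only [hm, hφ]
      rw [abs_le]
      constructor
      · have := neg_abs_le (X * (α + 8) - X * (ang z + 8))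
        linarith
      · have := le_abs_self (X * (α + 8) - X * (ang z + 8))
        linarith
    have hmn : (1 : ℝ) ≤ |(m : ℝ) - (φ z : ℝ)| := by
      have : (1 : ℤ) ≤ |(m : ℤ) - (φ z : ℤ)| := Int.one_le_abs (by
        intro h0
        apply hne
        have : (m : ℤ) = (φ z : ℤ) := by omega
        exact_mod_cast this.symm)
      exact_mod_cast this
    have hmn0 : 0 < ((m : ℝ) - (φ z : ℝ)) ^ 2 := by
      rw [← sq_abs]; positivity
    have hP : (4 : ℝ) ≤ Real.exp 1 ^ 2 := by nlinarith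
    by_cases h1 : |(m : ℝ) - (φ z : ℝ)| < 2
    · -- neighbours
      have h6 : |(m : ℝ) - (φ z : ℝ)| = 1 := by
        have h7 : |(m : ℤ) - (φ z : ℤ)| < 2 := by exact_mod_cast h1
        have h8 : (1 : ℤ) ≤ |(m : ℤ) - (φ z : ℤ)| := by exact_mod_cast hmn
        have h9 : |(m : ℤ) - (φ z : ℤ)| = 1 := by omega
        exact_mod_cast h9
      have h7 : ((m : ℝ) - (φ z : ℝ)) ^ 2 = 1 := by rw [← sq_abs, h6]; norm_num
      rw [h7]
      have h8 := Fj_le (2 * K) (α - ang z)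
      push_cast at h8
      refine h8.trans ?_
      rw [div_one, mul_one, le_div_iff₀ (by positivity)]
      have h9 : (1 : ℝ) ≤ Real.pi ^ 2 := by nlinarith [Real.pi_gt_three]
      have h10 : (4 : ℝ) ≤ Real.pi ^ 2 * Real.exp 1 ^ 2 := by nlinarith
      have h11 : (K : ℝ) ^ 2 ≤ (X + K) ^ 2 := by nlinarith
      have h12 : 4 * (K : ℝ) ^ 2 ≤ Real.pi ^ 2 * Real.exp 1 ^ 2 * (X + K) ^ 2 :=
        mul_le_mul h10 h11 (by positivity) (by positivity)
      nlinarith
    · push Not at h1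
      have h6 : |(m : ℝ) - (φ z : ℝ)| / (2 * X) ≤ |α - ang z| := by
        rw [div_le_iff₀ (by positivity)]
        nlinarith
      have h7 : 0 < |α - ang z| := lt_of_lt_of_le (by positivity) h6
      have h8 := Fj_le_sq (K := 2 * K) (by omega) (abs_pos.1 h7) ha
      refine h8.trans ?_
      have h9 : ((m : ℝ) - (φ z : ℝ)) ^ 2 / (2 * X) ^ 2 ≤ (α - ang z) ^ 2 := by
        rw [← sq_abs ((m : ℝ) - (φ z : ℝ)), ← sq_abs (α - ang z), ← div_pow]
        exact pow_le_pow_left₀ (by positivity) h6 2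
      push_cast
      calc Real.pi ^ 2 / (2 * K * (α - ang z) ^ 2)
          ≤ Real.pi ^ 2 / (2 * K * (((m : ℝ) - (φ z : ℝ)) ^ 2 / (2 * X) ^ 2)) := by
            apply div_le_div_of_nonneg_left (by positivity) (by positivity)
            exact mul_le_mul_of_nonneg_left h9 (by positivity)
        _ = Real.pi ^ 2 * 4 * X ^ 2 / (2 * K) * (1 / ((m : ℝ) - (φ z : ℝ)) ^ 2) := by
            field_simp
            ring
        _ ≤ Real.pi ^ 2 * Real.exp 1 ^ 2 * (X + K) ^ 2 / (2 * K) *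
            (1 / ((m : ℝ) - (φ z : ℝ)) ^ 2) := by
            apply mul_le_mul_of_nonneg_right _ (by positivity)
            apply div_le_div_of_nonneg_right _ (by positivity)
            have h10 : X ^ 2 ≤ (X + K) ^ 2 := by nlinarith
            have h11 : Real.pi ^ 2 * 4 ≤ Real.pi ^ 2 * Real.exp 1 ^ 2 :=
              mul_le_mul_of_nonneg_left hP (by positivity)
            exact mul_le_mul h11 h10 (by positivity) (by positivity)

theorem row {ι : Type*} [Nonempty ι] (ang : ι → ℝ)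
    (hang : ∀ z : ι, -Real.pi < ang z ∧ ang z ≤ Real.pi) {X : ℝ} {K : ℕ} (hX : 1 ≤ X) (hK : 1 ≤ K)
    (s : Finset ι) (hs : ∀ z ∈ s, ∀ z' ∈ s, z ≠ z' → 1 ≤ X * |ang z - ang z'|) (z₀ : ι) :
    ∑ z ∈ s, Fj (2 * K) (ang z₀ - ang z) ≤
      6 * (6 + Real.pi ^ 2 * Real.exp 1 ^ 2) * (X + K) := by
  classical
  have hK0 : (0 : ℝ) < K := by exact_mod_cast hK
  have hpi := Real.pi_pos
  set s0 := s.filter (fun z => |ang z₀ - ang z| ≤ Real.pi) with hs0
  set s1 := s.filter (fun z => ang z₀ - ang z < -Real.pi) with hs1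
  set s2 := s.filter (fun z => Real.pi < ang z₀ - ang z) with hs2
  have hF0 : ∀ z, 0 ≤ Fj (2 * K) (ang z₀ - ang z) := fun z => Fj_nonneg _ _
  have hsplit : ∑ z ∈ s, Fj (2 * K) (ang z₀ - ang z) ≤ ∑ z ∈ s0, Fj (2 * K) (ang z₀ - ang z) +
      ∑ z ∈ s1, Fj (2 * K) (ang z₀ - ang z) + ∑ z ∈ s2, Fj (2 * K) (ang z₀ - ang z) := by
    rw [hs0, hs1, hs2, Finset.sum_filter, Finset.sum_filter, Finset.sum_filter,
      ← Finset.sum_add_distrib, ← Finset.sum_add_distrib]
    refine Finset.sum_le_sum fun z _ => ?_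
    have h := hF0 z
    have n0 : 0 ≤ (if |ang z₀ - ang z| ≤ Real.pi then Fj (2 * K) (ang z₀ - ang z) else 0) := by
      split_ifs <;> linarith
    have n1 : 0 ≤ (if ang z₀ - ang z < -Real.pi then Fj (2 * K) (ang z₀ - ang z) else 0) := by
      split_ifs <;> linarith
    have n2 : 0 ≤ (if Real.pi < ang z₀ - ang z then Fj (2 * K) (ang z₀ - ang z) else 0) := by
      split_ifs <;> linarith
    rcases lt_or_ge (ang z₀ - ang z) (-Real.pi) with h1 | h1
    · rw [if_pos h1]; rw [if_pos h1] at n1; linarith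
    · rcases lt_or_ge Real.pi (ang z₀ - ang z) with h2 | h2
      · rw [if_pos h2]; rw [if_pos h2] at n2; linarith
      · have h3 : |ang z₀ - ang z| ≤ Real.pi := abs_le.2 ⟨h1, h2⟩
        rw [if_pos h3]; rw [if_pos h3] at n0; linarith
  have b0 := row_aux ang hang (α := ang z₀) hX hK s0
    (fun z hz z' hz' => hs z (Finset.mem_filter.1 hz).1 z' (Finset.mem_filter.1 hz').1)
    (fun z hz => (Finset.mem_filter.1 hz).2)
  have b1 := row_aux ang hang (α := ang z₀ + 2 * Real.pi) hX hK s1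
    (fun z hz z' hz' => hs z (Finset.mem_filter.1 hz).1 z' (Finset.mem_filter.1 hz').1)
    (fun z hz => by
      have h1 := (Finset.mem_filter.1 hz).2
      have h2 := hang z
      have h3 := hang z₀
      rw [abs_le]
      constructor <;> linarith)
  have b2 := row_aux ang hang (α := ang z₀ - 2 * Real.pi) hX hK s2
    (fun z hz z' hz' => hs z (Finset.mem_filter.1 hz).1 z' (Finset.mem_filter.1 hz').1)
    (fun z hz => by
      have h1 := (Finset.mem_filter.1 hz).2
      have h2 := hang z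
      have h3 := hang z₀
      rw [abs_le]
      constructor <;> linarith)
  have e1 : ∑ z ∈ s1, Fj (2 * K) (ang z₀ + 2 * Real.pi - ang z) =
      ∑ z ∈ s1, Fj (2 * K) (ang z₀ - ang z) := by
    refine Finset.sum_congr rfl fun z _ => ?_
    rw [← Fj_periodic (2 * K) (ang z₀ - ang z) 1]
    congr 1; push_cast; ring
  have e2 : ∑ z ∈ s2, Fj (2 * K) (ang z₀ - 2 * Real.pi - ang z) =
      ∑ z ∈ s2, Fj (2 * K) (ang z₀ - ang z) := by
    refine Finset.sum_congr rfl fun z _ => ?_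
    rw [← Fj_periodic (2 * K) (ang z₀ - ang z) (-1)]
    congr 1; push_cast; ring
  rw [e1] at b1
  rw [e2] at b2
  have hP : 0 ≤ Real.pi ^ 2 * Real.exp 1 ^ 2 := by positivity
  refine hsplit.trans ((add_le_add (add_le_add b0 b1) b2).trans ?_)
  have hXX : 0 ≤ (6 + Real.pi ^ 2 * Real.exp 1 ^ 2) * X := by positivity
  nlinarith

/-! ### expansion of the square -/

theorem expand (hD : t ^ 2 < 4 * c) (N : ℕ) (s : Finset (Qd t c)) (a : Qd t c → ℂ)
    (hs : ∀ z ∈ s, z ≠ 0) :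
    ((∑ k ∈ FK N, (1 - |(k : ℝ)| / N) * ‖DPG s a k‖ ^ 2 : ℝ) : ℂ) =
      ∑ z ∈ s, ∑ z' ∈ s, a z * (starRingEnd ℂ) (a z') * (Fj N (ang z' - ang z) : ℂ) := by
  rw [Complex.ofReal_sum]
  have h1 : ∀ k ∈ FK N, (((1 - |(k : ℝ)| / N) * ‖DPG s a k‖ ^ 2 : ℝ) : ℂ) =
      ∑ z ∈ s, ∑ z' ∈ s, a z * (starRingEnd ℂ) (a z') * (((1 - |(k : ℝ)| / N : ℝ) : ℂ) *
        Complex.exp (-((k * (ang z' - ang z) : ℝ) : ℂ) * Complex.I)) := by
    intro k _
    have h2 : (((‖DPG s a k‖ ^ 2 : ℝ)) : ℂ) = DPG s a k * (starRingEnd ℂ) (DPG s a k) := by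
      rw [Complex.mul_conj, Complex.normSq_eq_norm_sq]
    rw [Complex.ofReal_mul, h2]
    unfold DPG
    rw [map_sum, Finset.sum_mul_sum, Finset.mul_sum]
    refine Finset.sum_congr rfl fun z hz => ?_
    rw [Finset.mul_sum]
    refine Finset.sum_congr rfl fun z' hz' => ?_
    rw [map_mul, ps_eq_exp hD (hs z hz), ps_eq_exp hD (hs z' hz'), ← Complex.exp_conj]
    have h3 : Complex.exp (-((k * (ang z' - ang z) : ℝ) : ℂ) * Complex.I) =
        Complex.exp (((k * ang z : ℝ) : ℂ) * Complex.I) *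
        Complex.exp ((starRingEnd ℂ) (((k * ang z' : ℝ) : ℂ) * Complex.I)) := by
      rw [← Complex.exp_add]
      congr 1
      rw [map_mul, Complex.conj_I, Complex.conj_ofReal]
      push_cast
      ring
    rw [h3]
    ring
  rw [Finset.sum_congr rfl h1, Finset.sum_comm]
  refine Finset.sum_congr rfl fun z _ => ?_
  rw [Finset.sum_comm]
  refine Finset.sum_congr rfl fun z' _ => ?_
  rw [← Finset.mul_sum, fej_exp]

theorem ls (hD : t ^ 2 < 4 * c) : S_LS t c := by
  refine ⟨24 * (6 + Real.pi ^ 2 * Real.exp 1 ^ 2), by positivity, ?_⟩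
  intro X K s a hX hK hs
  have hsep : ∀ z ∈ s, ∀ z' ∈ s, z ≠ z' → 1 ≤ (2 * X) * |ang z - ang z'| :=
    fun z hz z' hz' hne => sep hD hX (hs z hz).1 (hs z' hz').1 (hs z hz).2 (hs z' hz').2 hne
  have hang : ∀ z : Qd t c, -Real.pi < ang z ∧ ang z ≤ Real.pi := fun z =>
    ⟨Complex.neg_pi_lt_arg _, Complex.arg_le_pi _⟩
  have hX2 : 1 ≤ 2 * X := by linarith
  have hK0 : (0 : ℝ) < K := by exact_mod_cast hK
  set B : ℝ := 6 * (6 + Real.pi ^ 2 * Real.exp 1 ^ 2) * (2 * X + K) with hB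
  have hB0 : 0 ≤ B := by positivity
  set E : ℝ := ∑ k ∈ FK (2 * K), (1 - |(k : ℝ)| / ((2 * K : ℕ) : ℝ)) * ‖DPG s a k‖ ^ 2 with hE
  have h1 : ∑ k ∈ FK K, ‖DPG s a k‖ ^ 2 ≤ 2 * E := by
    rw [hE, Finset.mul_sum]
    calc ∑ k ∈ FK K, ‖DPG s a k‖ ^ 2
        ≤ ∑ k ∈ FK K, 2 * ((1 - |(k : ℝ)| / ((2 * K : ℕ) : ℝ)) * ‖DPG s a k‖ ^ 2) := by
          refine Finset.sum_le_sum fun k hk => ?_
          unfold FK at hk
          rw [Finset.mem_Ioo] at hk
          have habs : |(k : ℝ)| ≤ K := by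
            have : |k| ≤ (K : ℤ) := by
              rw [abs_le]
              constructor <;> omega
            exact_mod_cast this
          have h2 : |(k : ℝ)| / ((2 * K : ℕ) : ℝ) ≤ 1 / 2 := by
            push_cast
            rw [div_le_div_iff₀ (by positivity) (by norm_num)]
            linarith
          have h3 : 0 ≤ ‖DPG s a k‖ ^ 2 := by positivity
          nlinarith
      _ ≤ ∑ k ∈ FK (2 * K), 2 * ((1 - |(k : ℝ)| / ((2 * K : ℕ) : ℝ)) * ‖DPG s a k‖ ^ 2) := by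
          refine Finset.sum_le_sum_of_subset_of_nonneg ?_ ?_
          · intro k hk
            unfold FK at hk ⊢
            rw [Finset.mem_Ioo] at hk ⊢
            push_cast
            constructor <;> omega
          · intro k hk _
            unfold FK at hk
            rw [Finset.mem_Ioo] at hk
            have habs : |(k : ℝ)| ≤ ((2 * K : ℕ) : ℝ) := by
              have : |k| ≤ ((2 * K : ℕ) : ℤ) := by
                rw [abs_le]
                constructor <;> omega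
              exact_mod_cast this
            have h2 : |(k : ℝ)| / ((2 * K : ℕ) : ℝ) ≤ 1 := by
              apply div_le_one_of_le₀ habs
              positivity
            have h3 : 0 ≤ ‖DPG s a k‖ ^ 2 := by positivity
            have h4 : 0 ≤ 1 - |(k : ℝ)| / ((2 * K : ℕ) : ℝ) := by linarith
            positivity
  have h2 : E ≤ ∑ z ∈ s, ∑ z' ∈ s, ‖a z‖ * ‖a z'‖ * Fj (2 * K) (ang z' - ang z) := by
    have hE' := expand hD (2 * K) s a (fun z hz => prim_ne_zero (hs z hz).1)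
    rw [← hE] at hE'
    have h3 : E ≤ ‖(E : ℂ)‖ := by
      rw [Complex.norm_real, Real.norm_eq_abs]
      exact le_abs_self _
    refine h3.trans ?_
    rw [hE']
    refine (norm_sum_le _ _).trans (Finset.sum_le_sum fun m _ => ?_)
    refine (norm_sum_le _ _).trans (Finset.sum_le_sum fun n _ => ?_)
    rw [norm_mul, norm_mul, RCLike.norm_conj, Complex.norm_real, Real.norm_eq_abs,
      abs_of_nonneg (Fj_nonneg _ _)]
  have h3 : ∑ z ∈ s, ∑ z' ∈ s, ‖a z‖ * ‖a z'‖ * Fj (2 * K) (ang z' - ang z) ≤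
      ∑ z ∈ s, ‖a z‖ ^ 2 * B := by
    have hpt : ∀ m ∈ s, ∀ n ∈ s, ‖a m‖ * ‖a n‖ * Fj (2 * K) (ang n - ang m) ≤
        ‖a m‖ ^ 2 / 2 * Fj (2 * K) (ang n - ang m) +
        ‖a n‖ ^ 2 / 2 * Fj (2 * K) (ang n - ang m) := by
      intro m _ n _
      have h4 := Fj_nonneg (2 * K) (ang n - ang m)
      have h5 : ‖a m‖ * ‖a n‖ ≤ ‖a m‖ ^ 2 / 2 + ‖a n‖ ^ 2 / 2 := by
        nlinarith [sq_nonneg (‖a m‖ - ‖a n‖)]
      calc ‖a m‖ * ‖a n‖ * Fj (2 * K) (ang n - ang m)
          ≤ (‖a m‖ ^ 2 / 2 + ‖a n‖ ^ 2 / 2) * Fj (2 * K) (ang n - ang m) :=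
            mul_le_mul_of_nonneg_right h5 h4
        _ = _ := by ring
    have hrow : ∀ m ∈ s, ∑ n ∈ s, Fj (2 * K) (ang n - ang m) ≤ B := by
      intro m hm
      have := row ang hang hX2 hK s hsep m
      have e : ∑ z ∈ s, Fj (2 * K) (ang m - ang z) = ∑ n ∈ s, Fj (2 * K) (ang n - ang m) := by
        refine Finset.sum_congr rfl fun z _ => ?_
        rw [← Fj_neg, neg_sub]
      rw [← e]
      exact this
    have hcol : ∀ n ∈ s, ∑ m ∈ s, Fj (2 * K) (ang n - ang m) ≤ B := fun n hn =>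
      row ang hang hX2 hK s hsep n
    calc ∑ m ∈ s, ∑ n ∈ s, ‖a m‖ * ‖a n‖ * Fj (2 * K) (ang n - ang m)
        ≤ ∑ m ∈ s, ∑ n ∈ s, (‖a m‖ ^ 2 / 2 * Fj (2 * K) (ang n - ang m) +
          ‖a n‖ ^ 2 / 2 * Fj (2 * K) (ang n - ang m)) :=
          Finset.sum_le_sum fun m hm => Finset.sum_le_sum fun n hn => hpt m hm n hn
      _ = ∑ m ∈ s, ‖a m‖ ^ 2 / 2 * ∑ n ∈ s, Fj (2 * K) (ang n - ang m) +
          ∑ n ∈ s, ‖a n‖ ^ 2 / 2 * ∑ m ∈ s, Fj (2 * K) (ang n - ang m) := by
          simp only [Finset.sum_add_distrib, Finset.mul_sum]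
          congr 1
          rw [Finset.sum_comm]
      _ ≤ ∑ m ∈ s, ‖a m‖ ^ 2 / 2 * B + ∑ n ∈ s, ‖a n‖ ^ 2 / 2 * B := by
          refine add_le_add ?_ ?_
          · exact Finset.sum_le_sum fun m hm =>
              mul_le_mul_of_nonneg_left (hrow m hm) (by positivity)
          · exact Finset.sum_le_sum fun n hn =>
              mul_le_mul_of_nonneg_left (hcol n hn) (by positivity)
      _ = ∑ m ∈ s, ‖a m‖ ^ 2 * B := by
          rw [← Finset.sum_add_distrib]
          exact Finset.sum_congr rfl fun m _ => by ring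
  calc ∑ k ∈ FK K, ‖DPG s a k‖ ^ 2 ≤ 2 * E := h1
    _ ≤ 2 * ∑ m ∈ s, ‖a m‖ ^ 2 * B := mul_le_mul_of_nonneg_left (h2.trans h3) (by norm_num)
    _ = 12 * (6 + Real.pi ^ 2 * Real.exp 1 ^ 2) * (K + 2 * X) * ∑ z ∈ s, ‖a z‖ ^ 2 := by
        rw [← Finset.sum_mul, hB]; ring
    _ ≤ 24 * (6 + Real.pi ^ 2 * Real.exp 1 ^ 2) * (K + X) * ∑ z ∈ s, ‖a z‖ ^ 2 := by
        apply mul_le_mul_of_nonneg_right _ (Finset.sum_nonneg fun _ _ => by positivity)
        have hP : 0 ≤ 6 + Real.pi ^ 2 * Real.exp 1 ^ 2 := by positivity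
        nlinarith [mul_nonneg hP hK0.le]

end Pool.Agent.W327.GA
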