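import Pool.Agent.W327.GA.AngE
import Pool.Agent.W540.GM.Ang1

/-!
GA-7: angular sums by van der Corput: the main theorem (port of `W540/GM/Ang1`).
-/

set_option autoImplicit false

namespace Pool.Agent.W327.GA

open Finset Complex
open Pool.Agent.W78.GA
open Pool.Agent.W540.GM (Good abs_ediv_le)

variable {t c : ℤ}

/-- the line bound in the order -/
lemma line_bound' (hD : t ^ 2 < 4 * c) (M : ℕ) {x₀ τ₀ : ℝ} (hx₀ : 0 < x₀) (hx₁ : x₀ ≤ 1)
    (hτ₀ : 0 < τ₀) :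
    ∃ η : ℝ, 0 < η ∧ η ≤ 1 ∧ ∃ C : ℝ, 0 < C ∧ ∀ (J L : ℕ) (z₀ u : Qd t c) (k : ℤ),
      1 ≤ J → L ≤ J → u ≠ 0 → Good (M + 4) x₀ τ₀ J (tc z₀) (tc u) →
      7 ≤ |(k : ℝ)| → |(k : ℝ)| ≤ (J : ℝ) ^ M →
      ‖∑ n ∈ range L, ps k (z₀ + (n : Qd t c) * u)‖ ≤
        C * ((J : ℝ) ^ (1 - η) + J / |(k : ℝ)|) := by
  obtain ⟨η, hη, hη1, C, hC, h⟩ := line_bound M hx₀ hx₁ hτ₀
  refine ⟨η, hη, hη1, C, hC, ?_⟩
  intro J L z₀ u k hJ hL hu hg h7 hk
  have := h J L (tc z₀) (tc u) k hJ hL (tc_ne_zero hD hu) hg h7 hk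
  refine le_trans (le_of_eq ?_) this
  congr 1
  refine sum_congr rfl fun n _ => ?_
  rw [ps_eq_pc, tc_add_natMul hD]

/-- decomposition into cells -/
lemma sum_lb_eq {d : ℕ} {r : ℤ} {S : ℕ} {Y : ℝ} {A : ℕ}
    (hA : ∀ z ∈ lb t c d r Y, |z.re / (S : ℤ)| ≤ A ∧ |z.im / (S : ℤ)| ≤ A) (f : Qd t c → ℂ) :
    ∑ z ∈ lb t c d r Y, f z =
      ∑ p ∈ (Icc (-(A : ℤ)) A) ×ˢ (Icc (-(A : ℤ)) A), ∑ z ∈ cl t c d r S Y p, f z := by
  rw [← sum_fiberwise_of_maps_to (g := fun z : Qd t c => (z.re / (S : ℤ), z.im / (S : ℤ)))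
    (t := (Icc (-(A : ℤ)) A) ×ˢ (Icc (-(A : ℤ)) A))]
  · rfl
  · intro z hz
    obtain ⟨h1, h2⟩ := hA z hz
    rw [mem_product, mem_Icc, mem_Icc]
    exact ⟨abs_le.1 h1, abs_le.1 h2⟩

/-- the annulus `Y/4 < nm z ≤ Y`, `Y` large -/
lemma annulus_large (hD : t ^ 2 < 4 * c) {d : ℕ} (hd : 1 ≤ d) (r₀ : ℤ) (M : ℕ) : ∃ η : ℝ, 0 < η ∧ η ≤ 1 ∧ ∃ C : ℝ, 0 < C ∧ ∃ R : ℝ, 1 ≤ R ∧
    ∀ (Y : ℝ) (k : ℤ), R ≤ Real.sqrt Y → 7 ≤ |(k : ℝ)| → |(k : ℝ)| ≤ Y ^ M →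
      ‖∑ z ∈ lb t c d r₀ Y, ps k z - ∑ z ∈ lb t c d r₀ (Y / 4), ps k z‖ ≤
        C * (Y ^ (1 - η / 2) + Y / |(k : ℝ)|) := by
  set T : ℕ := 4 * M + 4 with hT
  have hT1 : 1 ≤ T := by omega
  have hT' : (1 : ℝ) ≤ T := by exact_mod_cast hT1
  have hd' : (1 : ℝ) ≤ d := by exact_mod_cast hd
  set Q : ℝ := (Qn c : ℝ) with hQdef
  have hQ3 : 3 ≤ Q := one_le_Qn hD
  set R₀ : ℝ := 40960 * T ^ 2 * (d * Q ^ 2) with hR₀
  have hR₀1 : 1 ≤ R₀ := by
    rw [hR₀]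
    have h1 : (1 : ℝ) ≤ (T : ℝ) ^ 2 := one_le_pow₀ hT'
    have h2 : (1 : ℝ) ≤ Q ^ 2 := one_le_pow₀ (by linarith)
    calc (1 : ℝ) = 1 * 1 * (1 * 1) := by norm_num
      _ ≤ 40960 * T ^ 2 * (d * Q ^ 2) := by gcongr; norm_num
  obtain ⟨η, hη, hη1, C, hC, hline⟩ := line_bound' hD (4 * M) (x₀ := 1 / (R₀ * 32))
    (τ₀ := 6 / (32 * T + 2)) (by positivity)
    (by rw [div_le_one (by positivity)]; linarith) (by positivity)
  rw [← hT] at hline
  set A : ℕ := ⌈2 * R₀ * Q⌉₊ + 1 with hA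
  have hA0 : 2 * R₀ * Q + 1 ≤ (A : ℝ) := by
    rw [hA]; push_cast
    linarith [Nat.le_ceil (2 * R₀ * Q)]
  refine ⟨η, hη, hη1, ((2 * A + 1 : ℕ) : ℝ) ^ 2 * (2 * (257 * T * Q ^ 2 * d ^ 2 * (C * 2))),
    by positivity, R₀ ^ 2, one_le_pow₀ hR₀1, ?_⟩
  intro Y k hY hk7 hkM
  set r : ℝ := Real.sqrt Y with hr
  have hr1 : R₀ ≤ r := by
    refine le_trans ?_ hY
    nlinarith
  have hr1' : 1 ≤ r := hR₀1.trans hr1
  have hY0 : 0 < Y := by
    by_contra hcon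
    push Not at hcon
    rw [hr, Real.sqrt_eq_zero_of_nonpos hcon] at hr1'
    linarith
  have hr2 : r ^ 2 = Y := Real.sq_sqrt hY0.le
  set S : ℕ := ⌊r / R₀⌋₊ with hS
  have hy1 : 1 ≤ r / R₀ := by rw [le_div_iff₀ (by linarith)]; linarith
  have hS1 : 1 ≤ S := Nat.le_floor (by exact_mod_cast hy1)
  have hSle : (S : ℝ) ≤ r / R₀ := Nat.floor_le (by positivity)
  have hSge : r / R₀ / 2 ≤ (S : ℝ) := by
    have h1 : (1 : ℝ) ≤ S := by exact_mod_cast hS1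
    have h2 := Nat.lt_floor_add_one (r / R₀)
    rw [← hS] at h2
    linarith
  have hS0 : (0 : ℝ) < S := by exact_mod_cast hS1
  have hSr : (S : ℝ) ≤ r := hSle.trans (div_le_self (by linarith) hR₀1)
  have hk0 : 0 < |(k : ℝ)| := by linarith
  -- `|k| ≤ J ^ (4 M)`
  have hJ : |(k : ℝ)| ≤ ((2 * S : ℕ) : ℝ) ^ (4 * M) := by
    have h1 : r / R₀ ≤ ((2 * S : ℕ) : ℝ) := by push_cast; linarith
    have h2 : r ≤ (r / R₀) ^ 2 := by
      rw [div_pow, le_div_iff₀ (by positivity)]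
      nlinarith
    calc |(k : ℝ)| ≤ Y ^ M := hkM
      _ = r ^ (2 * M) := by rw [← hr2, ← pow_mul]
      _ ≤ ((r / R₀) ^ 2) ^ (2 * M) := by gcongr
      _ = (r / R₀) ^ (4 * M) := by rw [← pow_mul]; congr 1; ring
      _ ≤ _ := by gcongr
  set b : ℝ := C * (((2 * S : ℕ) : ℝ) ^ (1 - η) + ((2 * S : ℕ) : ℝ) / |(k : ℝ)|) with hb
  have hb0 : 0 ≤ b := by positivity
  have hcell := cell_diff hD hT1 hd r₀ hY0 hS1 hSge hSle (k := k) hb0 (by
    intro z₀ u L hL hu hgood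
    exact hline (2 * S) L z₀ u k (by omega) hL hu hgood hk7 hJ)
  have hidx : ∀ z ∈ lb t c d r₀ Y, |z.re / (S : ℤ)| ≤ A ∧ |z.im / (S : ℤ)| ≤ A := by
    intro z hz
    rw [mem_lb hD] at hz
    have h1 : Q * r + S ≤ A * S := by
      have h2 : r ≤ 2 * R₀ * S := by
        have h3 : r / R₀ ≤ 2 * S := by linarith
        rw [div_le_iff₀ (by linarith)] at h3
        linarith
      calc Q * r + S ≤ Q * (2 * R₀ * S) + S := by gcongr
        _ = (2 * R₀ * Q + 1) * S := by ring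
        _ ≤ A * S := by gcongr
    have h5 := coord_le hD hz.1.2
    exact ⟨abs_ediv_le hS1 h5.1 h1, abs_ediv_le hS1 h5.2 h1⟩
  have hidx' : ∀ z ∈ lb t c d r₀ (Y / 4), |z.re / (S : ℤ)| ≤ A ∧ |z.im / (S : ℤ)| ≤ A := by
    intro z hz
    apply hidx
    rw [mem_lb hD] at hz ⊢
    exact ⟨⟨hz.1.1, by linarith [hz.1.2]⟩, hz.2⟩
  rw [sum_lb_eq hidx, sum_lb_eq hidx', ← sum_sub_distrib]
  refine (norm_sum_le _ _).trans ?_
  refine (sum_le_sum fun p _ => hcell p).trans ?_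
  rw [sum_const, nsmul_eq_mul]
  have hcard : ((Icc (-(A : ℤ)) A) ×ˢ (Icc (-(A : ℤ)) A)).card = (2 * A + 1) ^ 2 := by
    rw [card_product, Int.card_Icc, sq]
    congr 1 <;> omega
  rw [hcard]
  push_cast
  rw [mul_assoc ((2 * (A : ℝ) + 1) ^ 2)]
  apply mul_le_mul_of_nonneg_left _ (by positivity)
  rw [mul_assoc (2 : ℝ)]
  apply mul_le_mul_of_nonneg_left _ (by positivity)
  -- the bound for `b`
  have hb1 : b ≤ C * 2 * (r ^ (1 - η) + r / |(k : ℝ)|) := by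
    rw [hb, mul_assoc C 2]
    apply mul_le_mul_of_nonneg_left _ hC.le
    push_cast
    rw [mul_add]
    apply add_le_add
    · calc (2 * (S : ℝ)) ^ (1 - η) ≤ (2 * r) ^ (1 - η) := by
            apply Real.rpow_le_rpow (by positivity) (by linarith) (by linarith)
        _ = 2 ^ (1 - η) * r ^ (1 - η) := Real.mul_rpow (by norm_num) (by linarith)
        _ ≤ 2 * r ^ (1 - η) := by
            apply mul_le_mul_of_nonneg_right _ (by positivity)
            calc (2 : ℝ) ^ (1 - η) ≤ 2 ^ (1 : ℝ) := by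
                  apply Real.rpow_le_rpow_of_exponent_le (by norm_num) (by linarith)
              _ = 2 := Real.rpow_one 2
    · rw [mul_div_assoc]
      gcongr
  have h1 : (256 * (T : ℝ) * Q ^ 2 * S + 1) ≤ 257 * T * Q ^ 2 * r := by
    have h2 : (1 : ℝ) ≤ Q ^ 2 := one_le_pow₀ (by linarith)
    have h3 : (1 : ℝ) ≤ T * Q ^ 2 * r := by
      calc (1 : ℝ) = 1 * 1 * 1 := by norm_num
        _ ≤ T * Q ^ 2 * r := by gcongr
    have h4 : 256 * (T : ℝ) * Q ^ 2 * S ≤ 256 * T * Q ^ 2 * r := by gcongr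
    linarith
  calc (256 * (T : ℝ) * Q ^ 2 * S + 1) * (d : ℝ) ^ 2 * b
      ≤ (257 * T * Q ^ 2 * r) * (d : ℝ) ^ 2 * (C * 2 * (r ^ (1 - η) + r / |(k : ℝ)|)) := by
        gcongr
    _ = 257 * T * Q ^ 2 * d ^ 2 * (C * 2) * (r * r ^ (1 - η) + r ^ 2 / |(k : ℝ)|) := by ring
    _ = _ := by
        have h2 : r * r ^ (1 - η) = Y ^ (1 - η / 2) := by
          rw [← Real.rpow_one_add' (by linarith) (by linarith), hr, Real.sqrt_eq_rpow,
            ← Real.rpow_mul hY0.le]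
          congr 1
          ring
        rw [h2, hr2]

/-- the annulus `Y/4 < nm z ≤ Y` -/
lemma annulus (hD : t ^ 2 < 4 * c) {d : ℕ} (hd : 1 ≤ d) (r₀ : ℤ) (M : ℕ) : ∃ η : ℝ, 0 < η ∧ η ≤ 1 / 2 ∧ ∃ C : ℝ, 0 < C ∧
    ∀ (Y : ℝ) (k : ℤ), 1 ≤ Y → k ≠ 0 → |(k : ℝ)| ≤ Y ^ M →
      ‖∑ z ∈ lb t c d r₀ Y, ps k z - ∑ z ∈ lb t c d r₀ (Y / 4), ps k z‖ ≤
        C * (Y ^ (1 - η) + Y / |(k : ℝ)|) := by
  obtain ⟨η, hη, hη1, C, hC, R, hR, h⟩ := annulus_large hD hd r₀ M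
  set G : ℝ := (Qn c : ℝ) ^ 2 with hG
  have hG0 : 0 ≤ G := by positivity
  refine ⟨η / 2, by positivity, by linarith, C + 18 * G * 7 + 18 * G * R ^ 2, by positivity, ?_⟩
  intro Y k hY hk hkM
  have hk0 : 0 < |(k : ℝ)| := abs_pos.2 (by exact_mod_cast hk)
  have hY0 : 0 < Y := by linarith
  have hp1 : 0 ≤ Y ^ (1 - η / 2) := by positivity
  have hp1' : 1 ≤ Y ^ (1 - η / 2) := Real.one_le_rpow hY (by linarith)
  have hp2 : 0 ≤ Y / |(k : ℝ)| := by positivity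
  have htriv : ‖∑ z ∈ lb t c d r₀ Y, ps k z - ∑ z ∈ lb t c d r₀ (Y / 4), ps k z‖ ≤
      18 * G * Y := by
    refine (norm_sub_le _ _).trans ?_
    have h1 := sum_lb_le hD (d := d) (r := r₀) hY0.le k
    have h2 := sum_lb_le hD (d := d) (r := r₀) (by positivity : 0 ≤ Y / 4) k
    have h3 : 0 ≤ G * Y := by positivity
    rw [← hG] at h1 h2
    linarith
  by_cases hc1 : 7 ≤ |(k : ℝ)|
  · by_cases hc2 : R ≤ Real.sqrt Y
    · refine (h Y k hc2 hc1 hkM).trans ?_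
      apply mul_le_mul_of_nonneg_right _ (by positivity)
      have h3 : 0 ≤ G * R ^ 2 := by positivity
      linarith
    · push Not at hc2
      have h3 : Y ≤ R ^ 2 := by
        have : Real.sqrt Y ^ 2 ≤ R ^ 2 := by gcongr
        rwa [Real.sq_sqrt hY0.le] at this
      refine htriv.trans ?_
      calc 18 * G * Y ≤ 18 * G * R ^ 2 * 1 := by
            rw [mul_one]
            gcongr
        _ ≤ 18 * G * R ^ 2 * (Y ^ (1 - η / 2) + Y / |(k : ℝ)|) := by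
            have h4 : (1 : ℝ) ≤ Y ^ (1 - η / 2) + Y / |(k : ℝ)| := by linarith
            gcongr
        _ ≤ _ := by
            apply mul_le_mul_of_nonneg_right _ (by positivity)
            linarith
  · push Not at hc1
    refine htriv.trans ?_
    have h4 : Y ≤ 7 * (Y / |(k : ℝ)|) := by
      rw [← mul_div_assoc, le_div_iff₀ hk0]
      nlinarith
    calc 18 * G * Y ≤ 18 * G * (7 * (Y / |(k : ℝ)|)) := by gcongr
      _ ≤ 18 * G * (7 * (Y ^ (1 - η / 2) + Y / |(k : ℝ)|)) := by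
          gcongr
          linarith
      _ = (18 * G * 7) * (Y ^ (1 - η / 2) + Y / |(k : ℝ)|) := by ring
      _ ≤ _ := by
          apply mul_le_mul_of_nonneg_right _ (by positivity)
          have h3 : 0 ≤ G * R ^ 2 := by positivity
          linarith

/-- **Angular sums, van der Corput part.** -/
theorem ang1 (hD : t ^ 2 < 4 * c) : S_ANG1 t c := by
  intro d r₀ M hd
  obtain ⟨η, hη, hη1, C, hC, h⟩ := annulus hD hd r₀ (2 * M)
  set G : ℝ := 9 * (Qn c : ℝ) ^ 2 with hG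
  have hG0 : 0 ≤ G := by positivity
  refine ⟨η, hη, 2 * C + G, by positivity, ?_⟩
  intro X k hX hk hkM
  show ‖∑ z ∈ lb t c d r₀ X, ps k z‖ ≤ _
  have hk0 : 0 < |(k : ℝ)| := abs_pos.2 (by exact_mod_cast hk)
  have hX0 : 0 < X := by linarith
  have key : ∀ (n : ℕ) (Y : ℝ), 1 ≤ Y → Y ≤ X → Y ≤ 4 ^ n →
      ‖∑ z ∈ lb t c d r₀ Y, ps k z‖ ≤ G * Real.sqrt X + 2 * C * (Y ^ (1 - η) + Y / |(k : ℝ)|) := by
    intro n
    induction n with
    | zero =>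
      intro Y hY _ h1
      have hY0 : 0 < Y := by linarith
      have h2 := sum_lb_le hD (d := d) (r := r₀) hY0.le k
      have h3 : 1 ≤ Real.sqrt X := by rw [Real.one_le_sqrt]; exact hX
      have h4 : 0 ≤ 2 * C * (Y ^ (1 - η) + Y / |(k : ℝ)|) := by positivity
      have h5 : Y ≤ 1 := by simpa using h1
      rw [← hG] at h2
      have h6 : G * Y ≤ G * Real.sqrt X := by
        gcongr
        linarith
      linarith
    | succ n ih =>
      intro Y hY hYX h1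
      have hY0 : 0 < Y := by linarith
      have h4 : 0 ≤ 2 * C * (Y ^ (1 - η) + Y / |(k : ℝ)|) := by positivity
      by_cases hc : Y ≤ Real.sqrt X
      · have h2 := sum_lb_le hD (d := d) (r := r₀) hY0.le k
        rw [← hG] at h2
        have h6 : G * Y ≤ G * Real.sqrt X := by gcongr
        linarith
      · push Not at hc
        have hXY : X ≤ Y ^ 2 := by
          have h5 : Real.sqrt X ^ 2 ≤ Y ^ 2 := by gcongr
          rwa [Real.sq_sqrt hX0.le] at h5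
        have hkY : |(k : ℝ)| ≤ Y ^ (2 * M) := by
          rw [pow_mul]
          exact hkM.trans (by gcongr)
        have h6 := h Y k hY hk hkY
        have h7 : ‖∑ z ∈ lb t c d r₀ (Y / 4), ps k z‖ ≤ G * Real.sqrt X +
            2 * C * ((Y / 4) ^ (1 - η) + (Y / 4) / |(k : ℝ)|) := by
          by_cases hc4 : 1 ≤ Y / 4
          · exact ih (Y / 4) hc4 (by linarith) (by rw [pow_succ] at h1; linarith)
          · push Not at hc4
            rw [lb_eq_empty hD hc4, sum_empty, norm_zero]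
            positivity
        have h8 : (Y / 4) ^ (1 - η) ≤ Y ^ (1 - η) / 2 := by
          rw [Real.div_rpow hY0.le (by norm_num)]
          apply div_le_div_of_nonneg_left (by positivity) (by norm_num)
          calc (2 : ℝ) = 4 ^ (1 / 2 : ℝ) := by
                rw [← Real.sqrt_eq_rpow, show (4 : ℝ) = 2 ^ 2 by norm_num,
                  Real.sqrt_sq (by norm_num)]
            _ ≤ 4 ^ (1 - η) := by
                apply Real.rpow_le_rpow_of_exponent_le (by norm_num) (by linarith)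
        have h9 : ‖∑ z ∈ lb t c d r₀ Y, ps k z‖ ≤
            ‖∑ z ∈ lb t c d r₀ Y, ps k z - ∑ z ∈ lb t c d r₀ (Y / 4), ps k z‖ +
              ‖∑ z ∈ lb t c d r₀ (Y / 4), ps k z‖ := by
          have := norm_add_le (∑ z ∈ lb t c d r₀ Y, ps k z - ∑ z ∈ lb t c d r₀ (Y / 4), ps k z)
            (∑ z ∈ lb t c d r₀ (Y / 4), ps k z)
          rwa [sub_add_cancel] at this
        have h10 : (Y / 4) / |(k : ℝ)| ≤ (Y / |(k : ℝ)|) / 2 := by
          rw [div_right_comm]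
          have : 0 ≤ Y / |(k : ℝ)| := by positivity
          linarith
        have h11 : 2 * C * ((Y / 4) ^ (1 - η) + (Y / 4) / |(k : ℝ)|) ≤
            2 * C * (Y ^ (1 - η) / 2 + (Y / |(k : ℝ)|) / 2) := by gcongr
        have h12 : 2 * C * (Y ^ (1 - η) / 2 + (Y / |(k : ℝ)|) / 2) +
            C * (Y ^ (1 - η) + Y / |(k : ℝ)|) = 2 * C * (Y ^ (1 - η) + Y / |(k : ℝ)|) := by ring
        linarith
  obtain ⟨n, hn⟩ := pow_unbounded_of_one_lt X (by norm_num : (1 : ℝ) < 4)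
  refine (key n X hX le_rfl hn.le).trans ?_
  have h1 : Real.sqrt X ≤ X ^ (1 - η) := by
    rw [Real.sqrt_eq_rpow]
    apply Real.rpow_le_rpow_of_exponent_le hX (by linarith)
  have h2 : 0 ≤ X / |(k : ℝ)| := by positivity
  calc G * Real.sqrt X + 2 * C * (X ^ (1 - η) + X / |(k : ℝ)|)
      ≤ G * (X ^ (1 - η) + X / |(k : ℝ)|) + 2 * C * (X ^ (1 - η) + X / |(k : ℝ)|) := by
        gcongr
        linarith
    _ = _ := by ring

end Pool.Agent.W327.GA
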