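import Pool.Agent.W327.GA.AngB
import Pool.Agent.W327.GA.LS

/-!
GA-7: angular sums by van der Corput, part C: the choice of the direction of the lines in a cell
(port of `W540/GM/AngC`).
-/

set_option autoImplicit false

namespace Pool.Agent.W327.GA

open Finset Complex
open Pool.Agent.W78.GA
open Pool.Agent.W540.GM (Good)

variable {t c : ℤ}

/-- a bound for the coefficients -/
def Qn (c : ℤ) : ℕ := 3 * c.natAbs

lemma c_pos (hD : t ^ 2 < 4 * c) : 1 ≤ c := by nlinarith [sq_nonneg t]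

lemma Qn_cast (hD : t ^ 2 < 4 * c) : (Qn c : ℝ) = 3 * c := by
  have h1 := c_pos hD
  have h2 : ((Qn c : ℕ) : ℤ) = 3 * c := by
    unfold Qn
    push_cast
    rw [abs_of_pos (by omega)]
  exact_mod_cast h2

lemma one_le_c (hD : t ^ 2 < 4 * c) : (1 : ℝ) ≤ c := by exact_mod_cast c_pos hD

lemma abs_t_le (hD : t ^ 2 < 4 * c) : |(t : ℝ)| ≤ 2 * c := by
  have h1 := one_le_c hD
  have h2 : (t : ℝ) ^ 2 < 4 * c := by exact_mod_cast hD
  apply abs_le_of_sq_le_sq _ (by linarith)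
  nlinarith

lemma q_le (hD : t ^ 2 < 4 * c) : Real.sqrt (4 * (c : ℝ) - (t : ℝ) ^ 2) ≤ 2 * c := by
  have h1 := one_le_c hD
  rw [Real.sqrt_le_left (by linarith)]
  nlinarith [sq_nonneg (t : ℝ)]

lemma one_le_Qn (hD : t ^ 2 < 4 * c) : (3 : ℝ) ≤ Qn c := by
  rw [Qn_cast hD]
  linarith [one_le_c hD]

/-- size of `tc` in terms of the coordinates -/
lemma norm_tc_le (hD : t ^ 2 < 4 * c) (z : Qd t c) {S : ℝ} (h1 : |(z.re : ℝ)| ≤ S)
    (h2 : |(z.im : ℝ)| ≤ S) : ‖tc z‖ ≤ Qn c * S := by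
  refine (Complex.norm_le_abs_re_add_abs_im _).trans ?_
  rw [tc_re, tc_im, Qn_cast hD]
  have hS : 0 ≤ S := (abs_nonneg _).trans h1
  have hc := one_le_c hD
  have h3 : |(z.re : ℝ) + t * z.im / 2| ≤ S + c * S := by
    refine (abs_add_le _ _).trans ?_
    have h4 : |(t : ℝ) * z.im / 2| ≤ c * S := by
      rw [abs_div, abs_mul, abs_of_pos (by norm_num : (0 : ℝ) < 2)]
      have : |(t : ℝ)| * |(z.im : ℝ)| ≤ (2 * c) * S :=
        mul_le_mul (abs_t_le hD) h2 (abs_nonneg _) (by linarith)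
      linarith
    linarith
  have h5 : |(z.im : ℝ) * Real.sqrt (4 * c - t ^ 2) / 2| ≤ c * S := by
    rw [abs_div, abs_mul, abs_of_pos (by norm_num : (0 : ℝ) < 2),
      abs_of_nonneg (Real.sqrt_nonneg _)]
    have : |(z.im : ℝ)| * Real.sqrt (4 * c - t ^ 2) ≤ S * (2 * c) :=
      mul_le_mul h2 (q_le hD) (Real.sqrt_nonneg _) hS
    linarith
  nlinarith

/-- size of the coordinates in terms of `tc` -/
lemma abs_im_le' (hD : t ^ 2 < 4 * c) (z : Qd t c) : |(z.im : ℝ)| ≤ 2 * ‖tc z‖ := by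
  have h1 := Complex.abs_im_le_norm (tc z)
  rw [tc_im, abs_div, abs_mul, abs_of_pos (by norm_num : (0 : ℝ) < 2),
    abs_of_nonneg (Real.sqrt_nonneg _)] at h1
  have h2 := one_le_q hD
  have h3 := abs_nonneg (z.im : ℝ)
  nlinarith

lemma abs_re_le' (hD : t ^ 2 < 4 * c) (z : Qd t c) : |(z.re : ℝ)| ≤ Qn c * ‖tc z‖ := by
  have h1 := Complex.abs_re_le_norm (tc z)
  rw [tc_re] at h1
  have h2 := abs_im_le' hD z
  have h3 : |(z.re : ℝ)| ≤ |(z.re : ℝ) + t * z.im / 2| + |(t : ℝ) * z.im / 2| := by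
    have := abs_sub (z.re + t * z.im / 2 : ℝ) (t * z.im / 2)
    rwa [add_sub_cancel_right] at this
  have h4 : |(t : ℝ) * z.im / 2| ≤ 2 * c * ‖tc z‖ := by
    rw [abs_div, abs_mul, abs_of_pos (by norm_num : (0 : ℝ) < 2)]
    have : |(t : ℝ)| * |(z.im : ℝ)| ≤ (2 * c) * (2 * ‖tc z‖) :=
      mul_le_mul (abs_t_le hD) h2 (abs_nonneg _) (by linarith [one_le_c hD])
    linarith
  rw [Qn_cast hD]
  have hc := one_le_c hD
  have h5 := norm_nonneg (tc z)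
  nlinarith

/-- rounding -/
lemma exists_round (hD : t ^ 2 < 4 * c) (z : ℂ) : ∃ u : Qd t c, ‖tc u - z‖ ≤ Qn c := by
  set q := Real.sqrt (4 * (c : ℝ) - (t : ℝ) ^ 2) with hq
  have hq1 : 1 ≤ q := one_le_q hD
  have hq0 : 0 < q := by linarith
  set y : ℤ := round (2 * z.im / q) with hy
  set x : ℤ := round (z.re - t * y / 2) with hx
  refine ⟨⟨x, y⟩, ?_⟩
  refine (Complex.norm_le_abs_re_add_abs_im _).trans ?_
  have h1 : (tc (⟨x, y⟩ : Qd t c) - z).re = (x : ℝ) - (z.re - t * y / 2) := by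
    rw [Complex.sub_re, tc_re]; ring
  have h2 : (tc (⟨x, y⟩ : Qd t c) - z).im = ((y : ℝ) - 2 * z.im / q) * (q / 2) := by
    rw [Complex.sub_im, tc_im, ← hq]
    field_simp
  rw [h1, h2, abs_mul, abs_sub_comm, abs_sub_comm (y : ℝ), abs_of_pos (by positivity : 0 < q / 2)]
  have h3 := abs_sub_round (z.re - t * y / 2)
  have h4 := abs_sub_round (2 * z.im / q)
  have h5 := q_le hD
  rw [← hq] at h5
  have h6 : |2 * z.im / q - y| * (q / 2) ≤ 1 / 2 * (q / 2) :=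
    mul_le_mul_of_nonneg_right h4 (by positivity)
  rw [Qn_cast hD]
  have hc := one_le_c hD
  have h7 : |z.re - t * y / 2 - x| ≤ 1 / 2 := h3
  linarith

lemma one_le_norm (hD : t ^ 2 < 4 * c) {u : Qd t c} (hu : u ≠ 0) : 1 ≤ ‖tc u‖ := by
  rw [norm_tc hD]
  rw [Real.one_le_sqrt]
  exact_mod_cast (one_le_nm hD).2 hu

/-- the primitive part -/
lemma exists_prim (hD : t ^ 2 < 4 * c) {v : Qd t c} (hv : v ≠ 0) : ∃ (g : ℕ) (u : Qd t c),
    0 < g ∧ prim u ∧ v = (g : Qd t c) * u ∧ (g : ℝ) ≤ ‖tc v‖ := by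
  have hg : 0 < Int.gcd v.re v.im := by
    rw [Nat.pos_iff_ne_zero, ne_eq, Int.gcd_eq_zero_iff]
    rintro ⟨h1, h2⟩
    exact hv (QuadraticAlgebra.ext h1 h2)
  obtain ⟨a, b, hab, h1, h2⟩ := Int.exists_gcd_one hg
  have hvu : v = ((Int.gcd v.re v.im : ℕ) : Qd t c) * (⟨a, b⟩ : Qd t c) := by
    apply QuadraticAlgebra.ext
    · rw [QuadraticAlgebra.re_mul, QuadraticAlgebra.re_natCast, QuadraticAlgebra.im_natCast]
      simp only [mul_zero, zero_mul, add_zero]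
      linarith [mul_comm a (Int.gcd v.re v.im : ℤ)]
    · rw [QuadraticAlgebra.im_mul, QuadraticAlgebra.re_natCast, QuadraticAlgebra.im_natCast]
      simp only [mul_zero, zero_mul, add_zero]
      linarith [mul_comm b (Int.gcd v.re v.im : ℤ)]
  have hprim : prim (⟨a, b⟩ : Qd t c) := by
    unfold prim
    exact hab
  refine ⟨Int.gcd v.re v.im, ⟨a, b⟩, hg, hprim, hvu, ?_⟩
  have h3 : ‖tc v‖ = (Int.gcd v.re v.im : ℝ) * ‖tc (⟨a, b⟩ : Qd t c)‖ := by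
    conv_lhs => rw [hvu]
    rw [tc_mul hD, norm_mul, tc_natCast, Complex.norm_natCast]
  rw [h3]
  have h4 := one_le_norm hD (prim_ne_zero hprim)
  have h5 : (0 : ℝ) ≤ (Int.gcd v.re v.im : ℝ) := Nat.cast_nonneg _
  nlinarith

/-- the direction of the lines near `zQ` -/
lemma exists_dir (hD : t ^ 2 < 4 * c) (T : ℕ) (hT : 1 ≤ T) (zQ : ℂ) (hQ : zQ ≠ 0) :
    ∃ u : Qd t c, prim u ∧
    ‖tc u‖ ≤ 64 * T * Qn c ∧ ∀ Z : ℂ, ‖Z - zQ‖ ≤ ‖zQ‖ / (64 * T) → ∃ x τ : ℝ,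
      tc u / Z = x * (1 + τ * I) ∧ 1 / (16 * ‖zQ‖) ≤ x ∧ x ≤ 256 * T * Qn c / ‖zQ‖ ∧
      6 / (32 * T + 2) ≤ τ ∧ T * τ ≤ 1 / 2 := by
  have hT' : (1 : ℝ) ≤ T := by exact_mod_cast hT
  set Q : ℝ := (Qn c : ℝ) with hQdef
  have hQ3 : 3 ≤ Q := one_le_Qn hD
  set B : ℝ := 32 * T * Q with hB
  have hTQ : Q ≤ T * Q := by nlinarith
  have hB32 : 32 * Q ≤ B := by rw [hB]; nlinarith
  have hB0 : 0 < B := by linarith
  have hQ0 : 0 < ‖zQ‖ := norm_pos_iff.2 hQ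
  set d : ℂ := zQ / ((‖zQ‖ : ℝ) : ℂ) with hd
  have hQC : ((‖zQ‖ : ℝ) : ℂ) ≠ 0 := by exact_mod_cast hQ0.ne'
  have hdn : ‖d‖ = 1 := by
    rw [hd, norm_div, Complex.norm_real, norm_norm, div_self hQ0.ne']
  have hdd : d * (starRingEnd ℂ) d = 1 := by
    rw [Complex.mul_conj, Complex.normSq_eq_norm_sq, hdn]
    norm_num
  set v : ℂ := (B : ℂ) * d * (1 + ((1 / (4 * T) : ℝ) : ℂ) * I) with hv
  obtain ⟨u', hu'⟩ := exists_round hD v
  -- the norm of `u'`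
  have hs1 : ‖(1 + ((1 / (4 * T) : ℝ) : ℂ) * I : ℂ)‖ ≤ 1 + 1 / (4 * T) := by
    refine (norm_add_le _ _).trans ?_
    rw [norm_one, norm_mul, Complex.norm_real, Complex.norm_I, mul_one, Real.norm_eq_abs,
      abs_of_pos (by positivity)]
  have h14 : 1 / (4 * (T : ℝ)) ≤ 1 / 4 := by
    apply one_div_le_one_div_of_le (by norm_num) (by linarith)
  have hvn : ‖v‖ ≤ B * (5 / 4) := by
    rw [hv, norm_mul, norm_mul, hdn, mul_one, Complex.norm_real, Real.norm_eq_abs,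
      abs_of_pos hB0]
    gcongr
    linarith
  have hvn2 : B ≤ ‖v‖ := by
    rw [hv, norm_mul, norm_mul, hdn, mul_one, Complex.norm_real, Real.norm_eq_abs,
      abs_of_pos hB0]
    have h1 : 1 ≤ ‖(1 + ((1 / (4 * T) : ℝ) : ℂ) * I : ℂ)‖ := by
      have := Complex.abs_re_le_norm (1 + ((1 / (4 * T) : ℝ) : ℂ) * I : ℂ)
      have e1 : (1 + ((1 / (4 * T) : ℝ) : ℂ) * I : ℂ).re = 1 := by
        rw [Complex.add_re, Complex.one_re, Complex.re_ofReal_mul, Complex.I_re, mul_zero, add_zero]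
      rw [e1, abs_one] at this
      exact this
    nlinarith
  have hu'n : ‖tc u'‖ ≤ 2 * B := by
    have := norm_sub_norm_le (tc u') v
    linarith
  have hu'0 : u' ≠ 0 := by
    rintro rfl
    have h0 : tc (0 : Qd t c) = 0 := by
      have := tc_natCast (t := t) (c := c) 0
      simpa using this
    rw [h0, zero_sub, norm_neg] at hu'
    linarith
  obtain ⟨g, u, hg, hprim, hgu, hgn⟩ := exists_prim hD hu'0
  have hg1 : (1 : ℝ) ≤ g := by exact_mod_cast hg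
  have hg0 : (0 : ℝ) < g := by linarith
  have hgC : (g : ℂ) ≠ 0 := by exact_mod_cast hg0.ne'
  have hucu : tc u' = (g : ℂ) * tc u := by
    rw [hgu, tc_mul hD, tc_natCast]
  refine ⟨u, hprim, ?_, ?_⟩
  · have h1 : ‖tc u'‖ = g * ‖tc u‖ := by
      rw [hucu, norm_mul, Complex.norm_natCast]
    have h2 : ‖tc u‖ ≤ g * ‖tc u‖ := by
      have := norm_nonneg (tc u)
      nlinarith
    rw [hB] at hu'n
    linarith
  intro Z hZ
  -- size of `Z`
  have hT64 : ‖zQ‖ / (64 * T) ≤ ‖zQ‖ / 2 := by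
    apply div_le_div_of_nonneg_left hQ0.le (by norm_num) (by linarith)
  have hZ1 : ‖zQ‖ / 2 ≤ ‖Z‖ := by
    have := norm_sub_norm_le zQ Z
    rw [norm_sub_rev] at this
    linarith
  have hZ2 : ‖Z‖ ≤ 2 * ‖zQ‖ := by
    have := norm_sub_norm_le Z zQ
    linarith
  have hZ0 : 0 < ‖Z‖ := by linarith
  have hZne : Z ≠ 0 := norm_pos_iff.1 hZ0
  -- the number `q`
  set q : ℂ := tc u' * (starRingEnd ℂ) Z / ((‖zQ‖ : ℝ) : ℂ) with hq
  have hq1 : q = (B : ℂ) * (1 + ((1 / (4 * T) : ℝ) : ℂ) * I) +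
      ((tc u' - v) * (starRingEnd ℂ) d +
        tc u' * (starRingEnd ℂ) (Z - zQ) / ((‖zQ‖ : ℝ) : ℂ)) := by
    have h1 : (starRingEnd ℂ) d = (starRingEnd ℂ) zQ / ((‖zQ‖ : ℝ) : ℂ) := by
      rw [hd, map_div₀, Complex.conj_ofReal]
    have h2 : v * (starRingEnd ℂ) d = (B : ℂ) * (1 + ((1 / (4 * T) : ℝ) : ℂ) * I) := by
      rw [hv]
      calc (B : ℂ) * d * (1 + ((1 / (4 * T) : ℝ) : ℂ) * I) * (starRingEnd ℂ) d
          = (B : ℂ) * (1 + ((1 / (4 * T) : ℝ) : ℂ) * I) * (d * (starRingEnd ℂ) d) := by ring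
        _ = _ := by rw [hdd, mul_one]
    rw [sub_mul, h2, h1, map_sub, hq]
    field_simp
    ring
  have herr : ‖(tc u' - v) * (starRingEnd ℂ) d +
        tc u' * (starRingEnd ℂ) (Z - zQ) / ((‖zQ‖ : ℝ) : ℂ)‖ ≤ 2 * Q := by
    refine (norm_add_le _ _).trans ?_
    have h1 : ‖(tc u' - v) * (starRingEnd ℂ) d‖ ≤ Q := by
      rw [norm_mul, Complex.norm_conj, hdn, mul_one]
      exact hu'
    have h2 : ‖tc u' * (starRingEnd ℂ) (Z - zQ) / ((‖zQ‖ : ℝ) : ℂ)‖ ≤ Q := by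
      rw [norm_div, norm_mul, Complex.norm_conj, Complex.norm_real, norm_norm, div_le_iff₀ hQ0]
      calc ‖tc u'‖ * ‖Z - zQ‖ ≤ (2 * B) * (‖zQ‖ / (64 * T)) := by gcongr
        _ = Q * ‖zQ‖ := by rw [hB]; field_simp; ring
    linarith
  set er : ℂ := (tc u' - v) * (starRingEnd ℂ) d +
        tc u' * (starRingEnd ℂ) (Z - zQ) / ((‖zQ‖ : ℝ) : ℂ) with her
  have hre : q.re = B + er.re := by
    rw [hq1, Complex.add_re, Complex.re_ofReal_mul, Complex.add_re, Complex.one_re,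
      Complex.re_ofReal_mul, Complex.I_re, mul_zero, add_zero, mul_one]
  have him : q.im = 8 * Q + er.im := by
    rw [hq1, Complex.add_im, Complex.im_ofReal_mul, Complex.add_im, Complex.one_im,
      Complex.im_ofReal_mul, Complex.I_im, mul_one, zero_add]
    congr 1
    rw [hB]
    field_simp
    norm_num
  have her1 := (Complex.abs_re_le_norm er).trans herr
  have her2 := (Complex.abs_im_le_norm er).trans herr
  rw [abs_le] at her1 her2
  have hqre1 : B - 2 * Q ≤ q.re := by linarith [her1.1]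
  have hqre2 : q.re ≤ B + 2 * Q := by linarith [her1.2]
  have hqim1 : 6 * Q ≤ q.im := by linarith [her2.1]
  have hqim2 : q.im ≤ 10 * Q := by linarith [her2.2]
  have hqre0 : 0 < q.re := by linarith
  -- the formula
  have hform : tc u / Z = ((‖zQ‖ / (g * ‖Z‖ ^ 2) : ℝ) : ℂ) * q := by
    have h1 : Z * (starRingEnd ℂ) Z = ((‖Z‖ ^ 2 : ℝ) : ℂ) := by
      rw [Complex.mul_conj, Complex.normSq_eq_norm_sq]
    have hZC : ((‖Z‖ : ℝ) : ℂ) ≠ 0 := by exact_mod_cast hZ0.ne'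
    rw [hq, hucu, div_eq_iff hZne]
    push_cast at h1 ⊢
    field_simp
    rw [mul_assoc, mul_comm ((starRingEnd ℂ) Z) Z, h1]
  refine ⟨‖zQ‖ / (g * ‖Z‖ ^ 2) * q.re, q.im / q.re, ?_, ?_, ?_, ?_, ?_⟩
  · rw [hform]
    have h1 : q = (q.re : ℂ) + (q.im : ℂ) * I := (Complex.re_add_im q).symm
    have hqC : (q.re : ℂ) ≠ 0 := by exact_mod_cast hqre0.ne'
    conv_lhs => rw [h1]
    push_cast
    field_simp
  · -- lower bound
    have h1 : (g : ℝ) * ‖Z‖ ^ 2 ≤ (2 * B) * (2 * ‖zQ‖) ^ 2 := by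
      gcongr
      linarith
    have h2 : 0 < (g : ℝ) * ‖Z‖ ^ 2 := by positivity
    rw [div_mul_eq_mul_div, div_le_div_iff₀ (by positivity) h2]
    calc 1 * ((g : ℝ) * ‖Z‖ ^ 2) ≤ (2 * B) * (2 * ‖zQ‖) ^ 2 := by rw [one_mul]; exact h1
      _ = ‖zQ‖ ^ 2 * (8 * B) := by ring
      _ ≤ ‖zQ‖ ^ 2 * (16 * q.re) := mul_le_mul_of_nonneg_left (by linarith) (by positivity)
      _ = _ := by ring
  · have h1 : (1 : ℝ) * (‖zQ‖ / 2) ^ 2 ≤ (g : ℝ) * ‖Z‖ ^ 2 := by gcongr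
    have h2 : 0 < (g : ℝ) * ‖Z‖ ^ 2 := by positivity
    rw [div_mul_eq_mul_div, div_le_div_iff₀ h2 hQ0]
    calc ‖zQ‖ * q.re * ‖zQ‖ = ‖zQ‖ ^ 2 * q.re := by ring
      _ ≤ ‖zQ‖ ^ 2 * (2 * B) := by gcongr; linarith
      _ = (256 * T * Q) * (1 * (‖zQ‖ / 2) ^ 2) := by rw [hB]; ring
      _ ≤ _ := by gcongr
  · rw [div_le_div_iff₀ (by positivity) hqre0]
    have h1 : q.re ≤ (32 * T + 2) * Q := by rw [hB] at hqre2; linarith
    calc 6 * q.re ≤ 6 * ((32 * T + 2) * Q) := by linarith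
      _ = (6 * Q) * (32 * T + 2) := by ring
      _ ≤ q.im * (32 * T + 2) := by gcongr
  · rw [← mul_div_assoc, div_le_iff₀ hqre0]
    have h1 : (T : ℝ) * q.im ≤ T * (10 * Q) := by gcongr
    have h2 : B = 32 * T * Q := hB
    nlinarith

/-- all lines through a cell near `zQ` are good -/
lemma cell_good (hD : t ^ 2 < 4 * c) (T : ℕ) (hT : 1 ≤ T) (d : ℕ) (hd1 : 1 ≤ d) (r : ℝ) (S : ℕ)
    (hS : 1 ≤ S)
    (hS1 : r / (40960 * T ^ 2 * (d * (Qn c : ℝ) ^ 2)) / 2 ≤ (S : ℝ))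
    (hS2 : (S : ℝ) ≤ r / (40960 * T ^ 2 * (d * (Qn c : ℝ) ^ 2)))
    (zQ : Qd t c) (hQ1 : r / 2 ≤ ‖tc zQ‖) (hQ2 : ‖tc zQ‖ ≤ 2 * r) :
    ∃ u : Qd t c, prim u ∧ ‖tc u‖ ≤ 64 * T * Qn c ∧ ∀ z₀ : Qd t c,
      |z₀.re - zQ.re| < S → |z₀.im - zQ.im| < S →
      Good T (1 / (40960 * T ^ 2 * (d * (Qn c : ℝ) ^ 2) * 32)) (6 / (32 * T + 2))
        ((2 * S : ℕ) : ℝ) (tc z₀) ((d : ℂ) * tc u) := by
  have hT' : (1 : ℝ) ≤ T := by exact_mod_cast hT
  have hd' : (1 : ℝ) ≤ d := by exact_mod_cast hd1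
  set Q : ℝ := (Qn c : ℝ) with hQdef
  have hQ3 : 3 ≤ Q := one_le_Qn hD
  set K : ℝ := 40960 * T ^ 2 * (d * Q ^ 2) with hK
  have hK0 : 0 < K := by positivity
  have hS0 : (0 : ℝ) < S := by exact_mod_cast hS
  have hr : 0 < r := by
    have h1 : 0 < r / K := by linarith
    by_contra hcon
    push Not at hcon
    have := div_nonpos_of_nonpos_of_nonneg hcon hK0.le
    linarith
  have hQ0 : 0 < ‖tc zQ‖ := by linarith
  obtain ⟨u, hprim, hun, hdir⟩ := exists_dir hD T hT (tc zQ) (norm_pos_iff.1 hQ0)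
  refine ⟨u, hprim, hun, ?_⟩
  intro z₀ hz1 hz2 s ht0 ht1
  have hS2' : (S : ℝ) * K ≤ r := by
    rwa [le_div_iff₀ hK0] at hS2
  have hS1' : r ≤ 2 * (S : ℝ) * K := by
    rw [div_div, div_le_iff₀ (by positivity)] at hS1
    linarith
  have hz1' : |(((z₀ - zQ).re : ℤ) : ℝ)| ≤ S := by
    rw [QuadraticAlgebra.re_sub]
    have : |z₀.re - zQ.re| ≤ (S : ℤ) := hz1.le
    exact_mod_cast this
  have hz2' : |(((z₀ - zQ).im : ℤ) : ℝ)| ≤ S := by
    rw [QuadraticAlgebra.im_sub]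
    have : |z₀.im - zQ.im| ≤ (S : ℤ) := hz2.le
    exact_mod_cast this
  have hd1' : ‖tc z₀ - tc zQ‖ ≤ Q * S := by
    have h1 : tc z₀ - tc zQ = tc (z₀ - zQ) := by
      rw [sub_eq_add_neg z₀, tc_add, tc_neg, sub_eq_add_neg]
    rw [h1]
    exact norm_tc_le hD _ hz1' hz2'
  have hd2 : ‖(s : ℂ) * ((d : ℂ) * tc u)‖ ≤ (4 * S) * (d * (64 * T * Q)) := by
    rw [norm_mul, norm_mul, Complex.norm_real, Complex.norm_natCast, Real.norm_eq_abs,
      abs_of_nonneg ht0]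
    push_cast at ht1
    gcongr
    linarith
  have hTd : (1 : ℝ) ≤ T * d := by nlinarith
  have hd : ‖tc z₀ + s * ((d : ℂ) * tc u) - tc zQ‖ ≤ ‖tc zQ‖ / (64 * T) := by
    have h1 : ‖tc z₀ + s * ((d : ℂ) * tc u) - tc zQ‖ ≤ Q * S + (4 * S) * (d * (64 * T * Q)) := by
      have e1 : tc z₀ + s * ((d : ℂ) * tc u) - tc zQ =
        (tc z₀ - tc zQ) + s * ((d : ℂ) * tc u) := by ring
      rw [e1]
      exact (norm_add_le _ _).trans (add_le_add hd1' hd2)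
    refine h1.trans ?_
    rw [le_div_iff₀ (by positivity)]
    have h2 : (Q * S + (4 * S) * (d * (64 * T * Q))) * (64 * T) ≤ S * K / 2 := by
      have h3 : (Q * (S : ℝ) + (4 * S) * (d * (64 * T * Q))) ≤ S * Q * (257 * (T * d)) := by
        have : Q * (S : ℝ) * 1 ≤ Q * S * (T * d) := by gcongr
        linarith
      calc (Q * (S : ℝ) + (4 * S) * (d * (64 * T * Q))) * (64 * T)
          ≤ (S * Q * (257 * (T * d))) * (64 * T) := by gcongr
        _ = S * (16448 * T ^ 2 * (d * (Q * 1))) := by ring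
        _ ≤ S * (20480 * T ^ 2 * (d * (Q * Q))) := by gcongr <;> linarith
        _ = _ := by rw [hK]; ring
    have h3 : (S : ℝ) * K / 2 ≤ r / 2 := by linarith
    linarith
  obtain ⟨x, τ, h1, h2, h3, h4, h5⟩ := hdir _ hd
  refine ⟨((2 * S : ℕ) : ℝ) * (d * x), τ, ?_, ?_, ?_, h4, h5⟩
  · rw [mul_div_assoc, mul_div_assoc, h1]
    push_cast
    ring
  · have h6 : ((2 * S : ℕ) : ℝ) * (1 * (1 / (16 * ‖tc zQ‖))) ≤ ((2 * S : ℕ) : ℝ) * (d * x) := by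
      gcongr
    refine le_trans ?_ h6
    rw [one_mul, mul_one_div, div_le_div_iff₀ (by positivity) (by positivity)]
    push_cast
    calc 1 * (16 * ‖tc zQ‖) ≤ 32 * r := by linarith
      _ ≤ 32 * (2 * (S : ℝ) * K) := by linarith
      _ = _ := by ring
  · have h6 : ((2 * S : ℕ) : ℝ) * (d * x) ≤
        ((2 * S : ℕ) : ℝ) * (d * (256 * T * Q / ‖tc zQ‖)) := by
      gcongr
    refine h6.trans ?_
    rw [← mul_div_assoc, ← mul_div_assoc, div_le_one hQ0]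
    push_cast
    have h7 : (2 * (S : ℝ)) * (d * (256 * T * Q)) ≤ S * K / 2 := by
      calc (2 * (S : ℝ)) * (d * (256 * T * Q)) = S * (512 * (T * 1) * (d * (Q * 1))) := by ring
        _ ≤ S * (20480 * (T * T) * (d * (Q * Q))) := by gcongr <;> linarith
        _ = _ := by rw [hK]; ring
    linarith

end Pool.Agent.W327.GA
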