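import Pool.Agent.W327.GA.AngC

/-!
GA-7: angular sums by van der Corput, part D: the sum over a convex set in a cell (port of
`W540/GM/AngD`, with residue classes modulo `d`).
-/

set_option autoImplicit false

namespace Pool.Agent.W327.GA

open Finset Complex
open Pool.Agent.W78.GA

variable {t c : ℤ}

/-- convexity along lines with steps divisible by `d` -/
def LConv (d : ℕ) (E : Finset (Qd t c)) : Prop :=
  ∀ z ∈ E, ∀ (u : Qd t c) (n j : ℕ), z + (n : Qd t c) * ((d : Qd t c) * u) ∈ E → j ≤ n →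
    z + (j : Qd t c) * ((d : Qd t c) * u) ∈ E

lemma re_natMul (u : Qd t c) (n : ℕ) : ((n : Qd t c) * u).re = n * u.re := by
  rw [QuadraticAlgebra.re_mul, QuadraticAlgebra.re_natCast, QuadraticAlgebra.im_natCast]
  ring

lemma im_natMul (u : Qd t c) (n : ℕ) : ((n : Qd t c) * u).im = n * u.im := by
  rw [QuadraticAlgebra.im_mul, QuadraticAlgebra.re_natCast, QuadraticAlgebra.im_natCast]
  ring

lemma re_intMul (u : Qd t c) (n : ℤ) : ((n : Qd t c) * u).re = n * u.re := by
  rw [QuadraticAlgebra.re_mul, QuadraticAlgebra.re_intCast, QuadraticAlgebra.im_intCast, Int.cast_id]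
  ring

lemma im_intMul (u : Qd t c) (n : ℤ) : ((n : Qd t c) * u).im = n * u.im := by
  rw [QuadraticAlgebra.im_mul, QuadraticAlgebra.re_intCast, QuadraticAlgebra.im_intCast, Int.cast_id]
  ring

lemma re_add_natMul (u z : Qd t c) (n : ℕ) : (z + (n : Qd t c) * u).re = z.re + n * u.re := by
  rw [QuadraticAlgebra.re_add, re_natMul]

lemma im_add_natMul (u z : Qd t c) (n : ℕ) : (z + (n : Qd t c) * u).im = z.im + n * u.im := by
  rw [QuadraticAlgebra.im_add, im_natMul]

/-- points on the same line of direction `u`, `u` primitive -/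
lemma exists_int_of_dt_eq {u z z' : Qd t c} (hu : prim u) (h : dt u z = dt u z') :
    ∃ n : ℤ, z' = z + (n : Qd t c) * u := by
  have hg := Int.gcd_eq_gcd_ab u.re u.im
  unfold prim at hu
  rw [hu] at hg
  set a := Int.gcdA u.re u.im
  set b := Int.gcdB u.re u.im
  unfold dt at h
  push_cast at hg
  refine ⟨a * (z'.re - z.re) + b * (z'.im - z.im), ?_⟩
  apply QuadraticAlgebra.ext
  · rw [QuadraticAlgebra.re_add, re_intMul]
    linear_combination (z'.re - z.re) * hg + b * h
  · rw [QuadraticAlgebra.im_add, im_intMul]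
    linear_combination (z'.im - z.im) * hg - a * h

/-- the fibre key: the line and the residue class -/
def key (d : ℕ) (u z : Qd t c) : ℤ × ℤ × ℤ := (dt u z, z.re % (d : ℤ), z.im % (d : ℤ))

lemma key_add (d : ℕ) (u z : Qd t c) (n : ℕ) :
    key d u (z + (n : Qd t c) * ((d : Qd t c) * u)) = key d u z := by
  unfold key
  rw [re_add_natMul, im_add_natMul, re_natMul, im_natMul]
  refine Prod.ext ?_ (Prod.ext ?_ ?_)
  · show dt u _ = dt u z
    unfold dt
    rw [re_add_natMul, im_add_natMul, re_natMul, im_natMul]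
    ring
  · show (z.re + n * (d * u.re)) % (d : ℤ) = z.re % (d : ℤ)
    rw [show z.re + (n : ℤ) * (d * u.re) = z.re + d * (n * u.re) by ring]
    exact Int.add_mul_emod_self_left _ _ _
  · show (z.im + n * (d * u.im)) % (d : ℤ) = z.im % (d : ℤ)
    rw [show z.im + (n : ℤ) * (d * u.im) = z.im + d * (n * u.im) by ring]
    exact Int.add_mul_emod_self_left _ _ _

/-- the sum over a convex set of points on a line in a residue class -/
lemma line_sum (hD : t ^ 2 < 4 * c) {d : ℕ} (hd : 1 ≤ d) {u : Qd t c} (hu : prim u)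
    {E : Finset (Qd t c)} (hE : LConv d E) {κ : ℤ × ℤ × ℤ}
    (hne : (E.filter (fun z => key d u z = κ)).Nonempty) : ∃ z₀ ∈ E, ∃ L : ℕ,
      1 ≤ L ∧ z₀ + ((L - 1 : ℕ) : Qd t c) * ((d : Qd t c) * u) ∈ E ∧
      ∀ f : Qd t c → ℂ, ∑ z ∈ E.filter (fun z => key d u z = κ), f z =
        ∑ n ∈ range L, f (z₀ + (n : Qd t c) * ((d : Qd t c) * u)) := by
  classical
  set F := E.filter (fun z => key d u z = κ) with hF
  obtain ⟨z₀, hz₀, hmin⟩ := F.exists_min_image (fun z => ip u z) hne
  have hz₀E : z₀ ∈ E := (mem_filter.1 hz₀).1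
  have hz₀c : key d u z₀ = κ := (mem_filter.1 hz₀).2
  have hnu : (0 : ℤ) < nm u := by exact_mod_cast nm_pos hD (prim_ne_zero hu)
  have hd0 : (0 : ℤ) < d := by exact_mod_cast hd
  set v : Qd t c := (d : Qd t c) * u with hv
  have hv0 : v ≠ 0 := by
    intro h0
    have h1 := congrArg nm h0
    rw [hv, nm_mul, nm_natCast, nm_zero] at h1
    have h2 : 0 < d ^ 2 * nm u := Nat.mul_pos (by positivity) (nm_pos hD (prim_ne_zero hu))
    omega
  have hnv0 : nm v ≠ 0 := fun h => hv0 ((nm_eq_zero hD).1 h)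
  -- every element of `F` is `z₀ + n v`
  have hform : ∀ z ∈ F, ∃ n : ℕ, z = z₀ + (n : Qd t c) * v := by
    intro z hz
    have hkey := hz₀c.trans (mem_filter.1 hz).2.symm
    have hk1 : dt u z₀ = dt u z := congrArg (fun p : ℤ × ℤ × ℤ => p.1) hkey
    have hk2 : z₀.re % (d : ℤ) = z.re % (d : ℤ) := congrArg (fun p : ℤ × ℤ × ℤ => p.2.1) hkey
    have hk3 : z₀.im % (d : ℤ) = z.im % (d : ℤ) := congrArg (fun p : ℤ × ℤ × ℤ => p.2.2) hkey
    obtain ⟨n, hn⟩ := exists_int_of_dt_eq hu hk1
    have hre : z.re = z₀.re + n * u.re := by rw [hn, QuadraticAlgebra.re_add, re_intMul]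
    have him : z.im = z₀.im + n * u.im := by rw [hn, QuadraticAlgebra.im_add, im_intMul]
    have hdn : (d : ℤ) ∣ n := by
      have h1 : (d : ℤ) ∣ n * u.re := by
        have := Int.ModEq.dvd hk2
        rw [hre] at this
        simpa using this
      have h2 : (d : ℤ) ∣ n * u.im := by
        have := Int.ModEq.dvd hk3
        rw [him] at this
        simpa using this
      have hg := Int.gcd_eq_gcd_ab u.re u.im
      unfold prim at hu
      rw [hu] at hg
      push_cast at hg
      have h3 : n = (n * u.re) * Int.gcdA u.re u.im + (n * u.im) * Int.gcdB u.re u.im := by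
        linear_combination n * hg
      rw [h3]
      exact dvd_add (h1.mul_right _) (h2.mul_right _)
    obtain ⟨m, hm⟩ := hdn
    have h1 := hmin z hz
    have h2 : ip u z = ip u z₀ + n * nm u := by
      rw [nm_cast hD]
      unfold ip
      rw [hre, him]
      ring
    rw [h2] at h1
    have h3 : 0 ≤ n := by
      by_contra hcon
      push Not at hcon
      have := mul_neg_of_neg_of_pos hcon hnu
      linarith
    have h4 : 0 ≤ m := by
      by_contra hcon
      push Not at hcon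
      have := mul_neg_of_pos_of_neg hd0 hcon
      omega
    obtain ⟨m, rfl⟩ := Int.eq_ofNat_of_zero_le h4
    refine ⟨m, ?_⟩
    rw [hn, hm, hv]
    push_cast
    ring
  have hmemF : ∀ n : ℕ, z₀ + (n : Qd t c) * v ∈ E → z₀ + (n : Qd t c) * v ∈ F := by
    intro n hn
    rw [hF, mem_filter]
    refine ⟨hn, ?_⟩
    rw [hv, key_add]
    exact hz₀c
  have hinj : ∀ m n : ℕ, z₀ + (m : Qd t c) * v = z₀ + (n : Qd t c) * v → m = n := by
    intro m n h
    have h1 := add_left_cancel h
    have hre := congrArg (fun z : Qd t c => z.re) h1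
    have him := congrArg (fun z : Qd t c => z.im) h1
    simp only [re_natMul, im_natMul] at hre him
    by_contra hne'
    have hne2 : ((m : ℤ) - n) ≠ 0 := by omega
    apply hv0
    apply QuadraticAlgebra.ext
    · have h2 : ((m : ℤ) - n) * v.re = 0 := by linarith
      exact (mul_eq_zero.1 h2).resolve_left hne2
    · have h2 : ((m : ℤ) - n) * v.im = 0 := by linarith
      exact (mul_eq_zero.1 h2).resolve_left hne2
  -- the first `n` with `z₀ + n v ∉ E`
  have hex : ∃ n : ℕ, z₀ + (n : Qd t c) * v ∉ E := by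
    by_contra hcon
    push Not at hcon
    have h1 : (Set.univ : Set ℕ).Infinite := Set.infinite_univ
    refine h1 ?_
    refine Set.Finite.of_finite_image (f := fun n : ℕ => z₀ + (n : Qd t c) * v)
      (E.finite_toSet.subset ?_) (fun m _ n _ h => hinj m n h)
    rintro _ ⟨n, _, rfl⟩
    exact hcon n
  set L := Nat.find hex with hL
  have hlt : ∀ n < L, z₀ + (n : Qd t c) * v ∈ E := by
    intro n hn
    by_contra hcon
    exact Nat.find_min hex hn hcon
  have hLspec : z₀ + (L : Qd t c) * v ∉ E := Nat.find_spec hex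
  have hL1 : 1 ≤ L := by
    rw [Nat.one_le_iff_ne_zero]
    intro h0
    rw [h0] at hLspec
    apply hLspec
    simpa using hz₀E
  refine ⟨z₀, hz₀E, L, hL1, hlt _ (by omega), ?_⟩
  intro f
  have himg : F = (range L).image (fun n : ℕ => z₀ + (n : Qd t c) * v) := by
    ext z
    rw [mem_image]
    constructor
    · intro hz
      obtain ⟨n, hn⟩ := hform z hz
      refine ⟨n, ?_, hn.symm⟩
      rw [mem_range]
      by_contra hcon
      push Not at hcon
      apply hLspec
      refine hE z₀ hz₀E u n L ?_ hcon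
      rw [← hv, ← hn]
      exact (mem_filter.1 hz).1
    · rintro ⟨n, hn, rfl⟩
      exact hmemF n (hlt n (mem_range.1 hn))
  rw [himg, sum_image]
  intro m _ n _ h
  exact hinj m n h

/-- length of the segments -/
lemma length_le {v z₀ zQ : Qd t c} (hv : v ≠ 0) {S m : ℕ}
    (h1 : |z₀.re - zQ.re| < S) (h2 : |z₀.im - zQ.im| < S)
    (h3 : |(z₀ + (m : Qd t c) * v).re - zQ.re| < S)
    (h4 : |(z₀ + (m : Qd t c) * v).im - zQ.im| < S) : m + 1 ≤ 2 * S := by
  rw [re_add_natMul] at h3
  rw [im_add_natMul] at h4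
  have h5 : v.re ≠ 0 ∨ v.im ≠ 0 := by
    by_contra hcon
    push Not at hcon
    exact hv (QuadraticAlgebra.ext hcon.1 hcon.2)
  have key : ∀ x y : ℤ, |x| < S → |x + m * y| < S → y ≠ 0 → m + 1 ≤ 2 * S := by
    intro x y hx hy hy0
    have h6 : |(m : ℤ) * y| < 2 * S := by
      have e : (m : ℤ) * y = (x + m * y) - x := by ring
      rw [e]
      refine (abs_sub _ _).trans_lt ?_
      linarith
    rw [abs_mul, Nat.abs_cast] at h6
    have h7 : 1 ≤ |y| := Int.one_le_abs hy0
    have h8 : (m : ℤ) < 2 * S := by nlinarith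
    omega
  rcases h5 with h5 | h5
  · exact key (z₀.re - zQ.re) v.re h1 (by
      rw [show z₀.re - zQ.re + m * v.re = z₀.re + m * v.re - zQ.re by ring]; exact h3) h5
  · exact key (z₀.im - zQ.im) v.im h2 (by
      rw [show z₀.im - zQ.im + m * v.im = z₀.im + m * v.im - zQ.im by ring]; exact h4) h5

/-- the sum over a convex set in a cell, given the bound for lines -/
lemma cell_bound (hD : t ^ 2 < 4 * c) {T S d : ℕ} (hd : 1 ≤ d) {u zQ : Qd t c} (hu : prim u)
    (hun : ‖tc u‖ ≤ 64 * T * Qn c) {E : Finset (Qd t c)} (hE : LConv d E)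
    (hES : ∀ z ∈ E, |z.re - zQ.re| < S ∧ |z.im - zQ.im| < S) {f : Qd t c → ℂ} {b : ℝ}
    (hb : 0 ≤ b)
    (hline : ∀ z₀ ∈ E, ∀ L : ℕ, L ≤ 2 * S →
      ‖∑ n ∈ range L, f (z₀ + (n : Qd t c) * ((d : Qd t c) * u))‖ ≤ b) :
    ‖∑ z ∈ E, f z‖ ≤ ((256 * T * Qn c ^ 2 * S + 1) * d ^ 2 : ℕ) * b := by
  classical
  have hd0 : (0 : ℤ) < d := by exact_mod_cast hd
  have hQ3 := one_le_Qn hD
  have hre : |u.re| ≤ (64 * T * Qn c ^ 2 : ℕ) := by
    have h1 : |(u.re : ℝ)| ≤ ((64 * T * Qn c ^ 2 : ℕ) : ℝ) := by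
      refine (abs_re_le' hD u).trans ?_
      push_cast
      calc (Qn c : ℝ) * ‖tc u‖ ≤ Qn c * (64 * T * Qn c) := by gcongr
        _ = _ := by ring
    exact_mod_cast h1
  have him : |u.im| ≤ (64 * T * Qn c ^ 2 : ℕ) := by
    have h1 : |(u.im : ℝ)| ≤ ((64 * T * Qn c ^ 2 : ℕ) : ℝ) := by
      refine (abs_im_le' hD u).trans ?_
      push_cast
      calc (2 : ℝ) * ‖tc u‖ ≤ Qn c * (64 * T * Qn c) := by gcongr; linarith
        _ = _ := by ring
    exact_mod_cast h1
  set N : ℤ := ((128 * T * Qn c ^ 2 * S : ℕ) : ℤ) with hN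
  have hmaps : ∀ z ∈ E, key d u z ∈ (Icc (dt u zQ - N) (dt u zQ + N)) ×ˢ
      ((Ico (0 : ℤ) d) ×ˢ (Ico (0 : ℤ) d)) := by
    intro z hz
    obtain ⟨h1, h2⟩ := hES z hz
    have h3 : dt u z - dt u zQ = u.re * (z.im - zQ.im) - u.im * (z.re - zQ.re) := by
      unfold dt; ring
    have h4 : |dt u z - dt u zQ| ≤ N := by
      rw [h3]
      refine (abs_sub _ _).trans ?_
      rw [abs_mul, abs_mul]
      have h5 : |u.re| * |z.im - zQ.im| ≤ (64 * T * Qn c ^ 2 : ℕ) * (S : ℤ) :=
        mul_le_mul hre h2.le (abs_nonneg _) (by positivity)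
      have h6 : |u.im| * |z.re - zQ.re| ≤ (64 * T * Qn c ^ 2 : ℕ) * (S : ℤ) :=
        mul_le_mul him h1.le (abs_nonneg _) (by positivity)
      rw [hN]
      push_cast at h5 h6 ⊢
      linarith
    rw [abs_le] at h4
    unfold key
    rw [mem_product, mem_product, mem_Icc, mem_Ico, mem_Ico]
    refine ⟨⟨by linarith [h4.1], by linarith [h4.2]⟩, ⟨Int.emod_nonneg _ hd0.ne',
      Int.emod_lt_of_pos _ hd0⟩, ⟨Int.emod_nonneg _ hd0.ne', Int.emod_lt_of_pos _ hd0⟩⟩
  rw [← sum_fiberwise_of_maps_to hmaps]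
  refine (norm_sum_le _ _).trans ?_
  have hcard : ((Icc (dt u zQ - N) (dt u zQ + N)) ×ˢ
      ((Ico (0 : ℤ) d) ×ˢ (Ico (0 : ℤ) d))).card = (256 * T * Qn c ^ 2 * S + 1) * d ^ 2 := by
    rw [card_product, card_product, Int.card_Icc, Int.card_Ico, hN]
    push_cast
    rw [show dt u zQ + 128 * (T : ℤ) * (Qn c : ℤ) ^ 2 * S + 1 -
        (dt u zQ - 128 * T * (Qn c : ℤ) ^ 2 * S) =
      ((256 * T * Qn c ^ 2 * S + 1 : ℕ) : ℤ) by push_cast; ring, Int.toNat_natCast,
      sub_zero, Int.toNat_natCast]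
    ring
  calc ∑ κ ∈ (Icc (dt u zQ - N) (dt u zQ + N)) ×ˢ ((Ico (0 : ℤ) d) ×ˢ (Ico (0 : ℤ) d)),
        ‖∑ z ∈ E.filter (fun z => key d u z = κ), f z‖
      ≤ ∑ κ ∈ (Icc (dt u zQ - N) (dt u zQ + N)) ×ˢ ((Ico (0 : ℤ) d) ×ˢ (Ico (0 : ℤ) d)), b := by
        refine sum_le_sum fun κ _ => ?_
        by_cases hne : (E.filter (fun z => key d u z = κ)).Nonempty
        · obtain ⟨z₀, hz₀, L, hL1, hmem, hsum⟩ := line_sum hD hd hu hE hne
          rw [hsum f]
          apply hline z₀ hz₀ L
          have h5 := hES _ hz₀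
          have h6 := hES _ hmem
          have hv0 : (d : Qd t c) * u ≠ 0 := by
            intro h0
            have h1 := congrArg nm h0
            rw [nm_mul, nm_natCast, nm_zero] at h1
            have h2 : 0 < d ^ 2 * nm u :=
              Nat.mul_pos (by positivity) (nm_pos hD (prim_ne_zero hu))
            omega
          have := length_le hv0 h5.1 h5.2 h6.1 h6.2
          omega
        · rw [not_nonempty_iff_eq_empty] at hne
          rw [hne, sum_empty, norm_zero]
          exact hb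
    _ = _ := by
        rw [sum_const, hcard, nsmul_eq_mul]

end Pool.Agent.W327.GA
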