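import Pool.Agent.W327.GA.AngD
import Pool.Agent.W540.GM.AngE

/-!
GA-7: angular sums by van der Corput, part E: the sum over the ball (port of `W540/GM/AngE`).
-/

set_option autoImplicit false

namespace Pool.Agent.W327.GA

open Finset Complex
open Pool.Agent.W78.GA
open Pool.Agent.W540.GM (Good)

variable {t c : ℤ}

/-- the points of the ball in the lattice -/
noncomputable def lb (t c : ℤ) (d : ℕ) (r : ℤ) (Y : ℝ) : Finset (Qd t c) :=
  (ball t c Y).filter (lat d r)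

lemma mem_lb (hD : t ^ 2 < 4 * c) {d : ℕ} {r : ℤ} {Y : ℝ} {z : Qd t c} :
    z ∈ lb t c d r Y ↔ (1 ≤ nm z ∧ (nm z : ℝ) ≤ Y) ∧ lat d r z := by
  unfold lb
  rw [mem_filter, mem_ball hD]

lemma lb_eq_empty (hD : t ^ 2 < 4 * c) {d : ℕ} {r : ℤ} {Y : ℝ} (h : Y < 1) :
    lb t c d r Y = ∅ := by
  ext z
  rw [mem_lb hD]
  constructor
  · rintro ⟨⟨h1, h2⟩, -⟩
    have : (1 : ℝ) ≤ nm z := by exact_mod_cast h1
    linarith
  · intro h1
    exact absurd h1 (notMem_empty _)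

lemma coord_le (hD : t ^ 2 < 4 * c) {Y : ℝ} {z : Qd t c} (h : (nm z : ℝ) ≤ Y) :
    |(z.re : ℝ)| ≤ Qn c * Real.sqrt Y ∧ |(z.im : ℝ)| ≤ Qn c * Real.sqrt Y := by
  have h1 : ‖tc z‖ ≤ Real.sqrt Y := by
    rw [norm_tc hD]
    exact Real.sqrt_le_sqrt h
  have hQ := one_le_Qn hD
  constructor
  · exact (abs_re_le' hD z).trans (by gcongr)
  · refine (abs_im_le' hD z).trans ?_
    have := norm_nonneg (tc z)
    calc 2 * ‖tc z‖ ≤ Qn c * ‖tc z‖ := by gcongr; linarith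
      _ ≤ _ := by gcongr

/-- the trivial bound -/
lemma card_lb_le (hD : t ^ 2 < 4 * c) {d : ℕ} {r : ℤ} {Y : ℝ} (hY : 0 ≤ Y) :
    ((lb t c d r Y).card : ℝ) ≤ 9 * (Qn c : ℝ) ^ 2 * Y := by
  have hQ := one_le_Qn hD
  rcases lt_or_ge Y 1 with h1 | h1
  · rw [lb_eq_empty hD h1, card_empty]
    push_cast
    positivity
  set n : ℕ := ⌊Qn c * Real.sqrt Y⌋₊ with hn
  have hs1 : 1 ≤ Real.sqrt Y := by rw [Real.one_le_sqrt]; exact h1
  have hs2 : 1 ≤ Qn c * Real.sqrt Y := by nlinarith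
  have hn1 : 1 ≤ n := by rw [hn]; exact Nat.le_floor (by exact_mod_cast hs2)
  have hnle : (n : ℝ) ≤ Qn c * Real.sqrt Y := Nat.floor_le (by positivity)
  have hsub : lb t c d r Y ⊆ ((Icc (-(n : ℤ)) n) ×ˢ (Icc (-(n : ℤ)) n)).image
      (fun p => (⟨p.1, p.2⟩ : Qd t c)) := by
    intro z hz
    rw [mem_lb hD] at hz
    have key : ∀ x : ℤ, |(x : ℝ)| ≤ Qn c * Real.sqrt Y → x ∈ Icc (-(n : ℤ)) n := by
      intro x h2
      have h3 : (x.natAbs : ℝ) ≤ Qn c * Real.sqrt Y := by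
        rw [Nat.cast_natAbs]
        push_cast
        exact h2
      have h4 : x.natAbs ≤ n := Nat.le_floor h3
      rw [mem_Icc]
      omega
    have h5 := coord_le hD hz.1.2
    rw [mem_image]
    refine ⟨(z.re, z.im), ?_, rfl⟩
    rw [mem_product]
    exact ⟨key _ h5.1, key _ h5.2⟩
  have hcard : ((Icc (-(n : ℤ)) n)).card = 2 * n + 1 := by
    rw [Int.card_Icc]
    omega
  have h2 : (lb t c d r Y).card ≤ (2 * n + 1) ^ 2 := by
    refine (card_le_card hsub).trans (card_image_le.trans ?_)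
    rw [card_product, hcard, sq]
  have h3 : ((lb t c d r Y).card : ℝ) ≤ (2 * n + 1) ^ 2 := by exact_mod_cast h2
  have hn1' : (1 : ℝ) ≤ n := by exact_mod_cast hn1
  have h4 : (n : ℝ) ^ 2 ≤ (Qn c : ℝ) ^ 2 * Y := by
    calc (n : ℝ) ^ 2 ≤ (Qn c * Real.sqrt Y) ^ 2 := by gcongr
      _ = _ := by rw [mul_pow, Real.sq_sqrt hY]
  nlinarith

lemma sum_lb_le (hD : t ^ 2 < 4 * c) {d : ℕ} {r : ℤ} {Y : ℝ} (hY : 0 ≤ Y) (k : ℤ) :
    ‖∑ z ∈ lb t c d r Y, ps k z‖ ≤ 9 * (Qn c : ℝ) ^ 2 * Y := by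
  refine (norm_sum_le _ _).trans ?_
  refine (sum_le_sum fun z _ => norm_ps_le z k).trans ?_
  rw [sum_const, nsmul_eq_mul, mul_one]
  exact card_lb_le hD hY

/-- the points of the ball in a cell -/
noncomputable def cl (t c : ℤ) (d : ℕ) (r : ℤ) (S : ℕ) (Y : ℝ) (p : ℤ × ℤ) : Finset (Qd t c) :=
  (lb t c d r Y).filter (fun z => (z.re / (S : ℤ), z.im / (S : ℤ)) = p)

open Pool.Agent.W540.GM (cell_re between ediv_between)

/-- convexity of the norm along a line -/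
lemma nm_between (hD : t ^ 2 < 4 * c) {z u : Qd t c} {n j : ℕ} (hjn : j ≤ n) {Y : ℝ}
    (h1 : (nm z : ℝ) ≤ Y) (h2 : (nm (z + (n : Qd t c) * u) : ℝ) ≤ Y) :
    (nm (z + (j : Qd t c) * u) : ℝ) ≤ Y := by
  rcases Nat.eq_zero_or_pos n with rfl | hn
  · have : j = 0 := by omega
    subst this
    exact h2
  have e : ∀ m : ℕ, (nm (z + (m : Qd t c) * u) : ℝ) =
      nm z + 2 * m * ((z.re : ℝ) * u.re + t * (z.re * u.im + z.im * u.re) / 2 + c * z.im * u.im) +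
        (m : ℝ) ^ 2 * nm u := by
    intro m
    rw [nm_castR hD, nm_castR hD, nm_castR hD, re_add_natMul, im_add_natMul]
    push_cast
    ring
  have hn0 : (0 : ℝ) < n := by exact_mod_cast hn
  have hj0 : (0 : ℝ) ≤ j := Nat.cast_nonneg j
  have hjn' : (j : ℝ) ≤ n := by exact_mod_cast hjn
  have hu0 : (0 : ℝ) ≤ nm u := Nat.cast_nonneg _
  rw [e] at h2 ⊢
  set q := (z.re : ℝ) * u.re + t * (z.re * u.im + z.im * u.re) / 2 + c * z.im * u.im
  have key : (n : ℝ) * (nm z + 2 * j * q + (j : ℝ) ^ 2 * nm u) ≤ n * Y := by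
    have h3 : (n : ℝ) * (nm z + 2 * j * q + (j : ℝ) ^ 2 * nm u) =
        (n - j) * nm z + j * (nm z + 2 * n * q + (n : ℝ) ^ 2 * nm u) -
          n * (j * (n - j)) * nm u := by ring
    rw [h3]
    have h4 : 0 ≤ (n : ℝ) * (j * (n - j)) * nm u :=
      mul_nonneg (mul_nonneg hn0.le (mul_nonneg hj0 (by linarith))) hu0
    have h5 : ((n : ℝ) - j) * nm z ≤ (n - j) * Y := mul_le_mul_of_nonneg_left h1 (by linarith)
    have h6 : (j : ℝ) * (nm z + 2 * n * q + (n : ℝ) ^ 2 * nm u) ≤ j * Y :=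
      mul_le_mul_of_nonneg_left h2 hj0
    linarith
  exact le_of_mul_le_mul_left key hn0

lemma lat_add_mul {d : ℕ} {r : ℤ} {z : Qd t c} (h : lat d r z) (n : ℕ) (u : Qd t c) :
    lat d r (z + (n : Qd t c) * ((d : Qd t c) * u)) := by
  unfold lat at *
  rw [re_add_natMul, im_add_natMul, re_natMul, im_natMul]
  obtain ⟨a, ha⟩ := h
  exact ⟨a + n * u.re + r * (n * u.im), by linear_combination ha⟩

/-- the set of points of the ball in a cell away from the origin is convex -/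
lemma lconv_cl (hD : t ^ 2 < 4 * c) {d : ℕ} {r : ℤ} {S : ℕ} (hS : 1 ≤ S) (Y : ℝ) (p : ℤ × ℤ)
    (h0 : ¬ ((0 : ℤ) / (S : ℤ), (0 : ℤ) / (S : ℤ)) = p) : LConv d (cl t c d r S Y p) := by
  intro z hz u n j hn hjn
  unfold cl at hz hn ⊢
  rw [mem_filter, mem_lb hD] at hz hn ⊢
  obtain ⟨⟨⟨hz1, hz2⟩, hzl⟩, hz3⟩ := hz
  obtain ⟨⟨⟨hn1, hn2⟩, hnl⟩, hn3⟩ := hn
  have hz3' := Prod.ext_iff.1 hz3
  have hn3' := Prod.ext_iff.1 hn3
  simp only at hz3' hn3'
  have h1 : ((z + (j : Qd t c) * ((d : Qd t c) * u)).re / (S : ℤ),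
      (z + (j : Qd t c) * ((d : Qd t c) * u)).im / (S : ℤ)) = p := by
    apply Prod.ext
    · simp only
      rw [re_add_natMul]
      have h2 := hn3'.1
      rw [re_add_natMul] at h2
      exact ediv_between hS hjn hz3'.1 h2
    · simp only
      rw [im_add_natMul]
      have h2 := hn3'.2
      rw [im_add_natMul] at h2
      exact ediv_between hS hjn hz3'.2 h2
  refine ⟨⟨⟨?_, nm_between hD hjn hz2 hn2⟩, lat_add_mul hzl j u⟩, h1⟩
  rw [one_le_nm hD]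
  intro h3
  rw [h3] at h1
  exact h0 h1

/-- the bound for one cell -/
lemma cell_diff (hD : t ^ 2 < 4 * c) {T : ℕ} (hT : 1 ≤ T) {d : ℕ} (hd : 1 ≤ d) (r : ℤ) {Y : ℝ}
    (hY : 0 < Y) {S : ℕ} (hS : 1 ≤ S)
    (hS1 : Real.sqrt Y / (40960 * T ^ 2 * (d * (Qn c : ℝ) ^ 2)) / 2 ≤ (S : ℝ))
    (hS2 : (S : ℝ) ≤ Real.sqrt Y / (40960 * T ^ 2 * (d * (Qn c : ℝ) ^ 2))) {k : ℤ} {b : ℝ}
    (hb : 0 ≤ b)
    (hline : ∀ (z₀ v : Qd t c) (L : ℕ), L ≤ 2 * S → v ≠ 0 →
      Good T (1 / (40960 * T ^ 2 * (d * (Qn c : ℝ) ^ 2) * 32)) (6 / (32 * T + 2))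
        ((2 * S : ℕ) : ℝ) (tc z₀) (tc v) →
      ‖∑ n ∈ range L, ps k (z₀ + (n : Qd t c) * v)‖ ≤ b) (p : ℤ × ℤ) :
    ‖∑ z ∈ cl t c d r S Y p, ps k z - ∑ z ∈ cl t c d r S (Y / 4) p, ps k z‖ ≤
      2 * (((256 * T * Qn c ^ 2 * S + 1) * d ^ 2 : ℕ) * b) := by
  have hT' : (1 : ℝ) ≤ T := by exact_mod_cast hT
  have hd' : (1 : ℝ) ≤ d := by exact_mod_cast hd
  have hQ3 := one_le_Qn hD
  have hr0 : 0 < Real.sqrt Y := Real.sqrt_pos.2 hY
  have hr2 : Real.sqrt Y ^ 2 = Y := Real.sq_sqrt hY.le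
  by_cases hcase : ∃ zQ : Qd t c, (zQ.re / (S : ℤ), zQ.im / (S : ℤ)) = p ∧
      Y / 4 < (nm zQ : ℝ) ∧ (nm zQ : ℝ) ≤ 4 * Y
  · obtain ⟨zQ, hQp, hQ1, hQ2⟩ := hcase
    have hQn1 : Real.sqrt Y / 2 ≤ ‖tc zQ‖ := by
      rw [norm_tc hD]
      apply Real.le_sqrt_of_sq_le
      rw [div_pow, hr2]
      linarith
    have hQn2 : ‖tc zQ‖ ≤ 2 * Real.sqrt Y := by
      rw [norm_tc hD]
      rw [Real.sqrt_le_left (by positivity), mul_pow, hr2]
      linarith
    obtain ⟨u, hu, hun, hgood⟩ := cell_good hD T hT d hd (Real.sqrt Y) S hS hS1 hS2 zQ hQn1 hQn2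
    have hQp' := Prod.ext_iff.1 hQp
    simp only at hQp'
    -- the cell does not contain the origin
    have h0 : ¬ ((0 : ℤ) / (S : ℤ), (0 : ℤ) / (S : ℤ)) = p := by
      intro h
      have h' := Prod.ext_iff.1 h
      simp only at h'
      have h1 := cell_re hS hQp'.1 h'.1
      have h2 := cell_re hS hQp'.2 h'.2
      rw [sub_zero] at h1 h2
      have h3 : ‖tc zQ‖ ≤ Qn c * S := by
        refine norm_tc_le hD zQ ?_ ?_
        · exact_mod_cast h1.le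
        · exact_mod_cast h2.le
      have h8 : (Qn c : ℝ) * S * 4 ≤ Real.sqrt Y := by
        rw [le_div_iff₀ (by positivity)] at hS2
        have h10 : (0 : ℝ) ≤ S := Nat.cast_nonneg S
        calc (Qn c : ℝ) * S * 4 = S * (4 * 1 * (1 * ((Qn c : ℝ) * 1))) := by ring
          _ ≤ S * (40960 * T ^ 2 * (d * ((Qn c : ℝ) * Qn c))) := by
              have hT2 : (1 : ℝ) ≤ (T : ℝ) ^ 2 := one_le_pow₀ hT'
              have hQ1' : (1 : ℝ) ≤ Qn c := by linarith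
              gcongr
              norm_num
          _ ≤ Real.sqrt Y := by
              refine le_trans (le_of_eq ?_) hS2
              ring
      linarith
    have key : ∀ Y' : ℝ, ‖∑ z ∈ cl t c d r S Y' p, ps k z‖ ≤
        ((256 * T * Qn c ^ 2 * S + 1) * d ^ 2 : ℕ) * b := by
      intro Y'
      have hin : ∀ z ∈ cl t c d r S Y' p, |z.re - zQ.re| < S ∧ |z.im - zQ.im| < S := by
        intro z hz
        have h1 := Prod.ext_iff.1 (mem_filter.1 hz).2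
        simp only at h1
        exact ⟨cell_re hS h1.1 hQp'.1, cell_re hS h1.2 hQp'.2⟩
      refine cell_bound hD hd hu hun (lconv_cl hD hS Y' p h0) hin hb ?_
      intro z₀ hz₀ L hL
      obtain ⟨h1, h2⟩ := hin z₀ hz₀
      have hv0 : (d : Qd t c) * u ≠ 0 := by
        intro h0
        have h1 := congrArg nm h0
        rw [nm_mul, nm_natCast, nm_zero] at h1
        have h2 : 0 < d ^ 2 * nm u :=
          Nat.mul_pos (by positivity) (nm_pos hD (prim_ne_zero hu))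
        omega
      refine hline z₀ _ L hL hv0 ?_
      rw [tc_mul hD, tc_natCast]
      exact hgood z₀ h1 h2
    refine (norm_sub_le _ _).trans ?_
    have h1 := key Y
    have h2 := key (Y / 4)
    linarith
  · push Not at hcase
    have heq : cl t c d r S Y p = cl t c d r S (Y / 4) p := by
      ext z
      unfold cl
      rw [mem_filter, mem_filter, mem_lb hD, mem_lb hD]
      constructor
      · rintro ⟨⟨⟨h1, h2⟩, hl⟩, h3⟩
        refine ⟨⟨⟨h1, ?_⟩, hl⟩, h3⟩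
        by_contra hcon
        push Not at hcon
        have := hcase z h3 hcon
        linarith
      · rintro ⟨⟨⟨h1, h2⟩, hl⟩, h3⟩
        exact ⟨⟨⟨h1, by linarith⟩, hl⟩, h3⟩
    rw [heq, sub_self, norm_zero]
    positivity

end Pool.Agent.W327.GA
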